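import Pool.Agent.P.MP_08fd93_co.FM.M4
import Pool.Agent.P.MP_08fd93_co.FZ.Cell

/-! Dynamic layer: the disc of a macro cell and the units left by an output. -/

set_option autoImplicit false

namespace Pool.Agent.P.MP_08fd93_co.FM

open OV PkPrtP

variable {J : Type} {F : FD J} {Pr : Set (Vx J)} {M : MU J} {d : DD (Vx J)} {o : OD (Vx J)}
  {S : Set (Sym2 (Vx J))}

/-- A weak frame is a layer system. -/
theorem lay_of_w (h : FZ.WFrm F Pr) : Lay F Pr :=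
  ⟨h.wp.fine, h.nj, h.wp.per, h.wp.ker, h.wp.gen, h.uw.ge, h.uw.big, h.uw.mono, h.uw.utr, h.uw.ltr,
    h.uw.str, h.uw.lf, h.uw.lu, h.uw.bd, h.mem, h.rho, h.adj, h.lw, h.n2, h.ltr, h.ptr,
    fun _ _ hs ps => h.an_mem hs ps, fun a x _ => h.atr a x,
    fun _ _ hs _ ht ps pt l => h.mono hs ps ht pt l, fun _ _ hv => h.ex hv,
    fun _ _ hs _ hs' _ ht _ _ _ ps' pt _ l => h.dis hs hs' ps' ht pt l,
    fun _ _ hs _ hs' ps ps' _ hx l1 l2 _ a => h.top hs ps hs' ps' hx l1 l2 a,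
    fun _ _ hs _ hs' ps ps' _ hx l1 l2 _ a => h.bot hs ps hs' ps' hx l1 l2 a⟩

/-- `d` is the disc of the macro cell `M`. -/
structure MC (F : FD J) (M : MU J) (d : DD (Vx J)) : Prop where
  disc : Disc F.Γ d
  eX : d.X = F.Bot M.s M.s'
  eY : d.Y = M.T
  eI : d.I = CI F M
  ea : d.a = F.an M.s
  eb : d.b = F.an M.s'
  ea' : d.a' = M.s
  eb' : d.b' = M.s'
  rx : ∀ v ∈ F.Bot M.s M.s', d.ρ v = F.ρ v
  ry : ∀ u ∈ M.us, d.ρ u.s = F.ρ u.s ∧ d.ρ u.s' = F.ρ u.s' ∧ (u.x ≠ u.s → d.ρ u.x = F.ρ u.s + 1)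

theorem MVal.ap (hF : Lay F Pr) (hM : MVal F Pr M) {u1 u2 : Un J} (h1 : u1 ∈ M.us)
    (h2 : u2 ∈ M.us) (hne : u1 ≠ u2) : Ap F u1 u2 := by
  have v1 := (hM.val _ h1).1
  have v2 := (hM.val _ h2).1
  have hl := (hM.lev hF h1).trans (hM.lev hF h2).symm
  have l1 := vlt v1
  have l2 := vlt v2
  by_contra hc
  unfold Ap at hc
  rcases le_total (F.ρ u1.s) (F.ρ u2.s) with h | h
  · exact hne (hM.uni _ h1 _ h2 u2.s ⟨hl ▸ v2.hs, h, by omega⟩ ⟨v2.hs, le_rfl, l2⟩)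
  · exact hne (hM.uni _ h1 _ h2 u1.s ⟨v1.hs, le_rfl, l1⟩ ⟨hl ▸ v1.hs, h, by omega⟩)

theorem MVal.pkT (hF : Lay F Pr) (hM : MVal F Pr M) {v : Vx J} (h1 : v ∈ M.Pk) (h2 : v ∈ M.T) :
    False := by
  obtain ⟨u1, a1, b1⟩ := h1
  obtain ⟨u2, a2, b2⟩ := h2
  by_cases hne : u1 = u2
  · subst hne
    exact pkT' (hM.val _ a1).1 b1 b2
  · exact PkPrtP.pkT (hM.val _ a1).1 (hM.val _ a2).1 ((hM.lev hF a1).trans (hM.lev hF a2).symm)
      (hM.ap hF a1 a2 hne) b1 b2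

/-- every macro cell of a weak frame has a disc -/
theorem mc_ex (hW : FZ.WFrm F Pr) (hM : MVal F Pr M) : ∃ d, MC F M d := by
  have hF := lay_of_w hW
  have hR := hW.toRows
  have hC : FZ.Caps F (F.f M.s) {u | u ∈ M.us ∧ u.x ≠ u.s} :=
    ⟨fun u hu => (hM.val u hu.1).2.1.1, fun u hu => (hM.val u hu.1).2.2.1,
      fun u hu => cap_of (hM.val u hu.1).1 hu.2, fun u hu u' hu' hne => hM.ap hF hu.1 hu'.1 hne,
      fun u hu u' hu' => hM.nadj u hu.1 u' hu'.1 hu.2 hu'.2⟩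
  obtain ⟨σ, ho⟩ := hC.ord hR
  have ins : ∀ u ∈ {u | u ∈ M.us ∧ u.x ≠ u.s}, F.ρ M.s ≤ F.ρ u.s ∧ F.ρ u.s' ≤ F.ρ M.s' :=
    fun u hu => ⟨(hM.val u hu.1).2.1.2.1, (hM.val u hu.1).2.2.2.2⟩
  have eP : FZ.capP {u | u ∈ M.us ∧ u.x ≠ u.s} = M.Pk := by
    ext v
    exact ⟨fun ⟨u, hu, h⟩ => ⟨u, hu.1, h⟩, fun ⟨u, hu, h⟩ =>
      ⟨u, ⟨hu, cap_ne (hM.val u hu).1 (capOf (hM.val u hu).1 h)⟩, h⟩⟩
  refine ⟨_, hC.mcell_disc hW ho hM.hs hM.ps hM.hs' hM.ps' hM.lt.le ins, rfl, ?_, ?_, rfl, rfl, rfl,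
    rfl, fun v hv => ho.l hC hR fun k => botNot hv (hF.luU (Or.inr k)), fun u hu => ?_⟩
  · ext v
    show v ∈ FZ.mT F M.s M.s' _ ↔ _
    unfold FZ.mT
    rw [eP]
    constructor
    · rintro (⟨h1, h2⟩ | ⟨u, hu, rfl⟩)
      · exact (top_mem hF hM h1).resolve_right h2
      · exact ⟨u, hu.1, Or.inr (Or.inl rfl)⟩
    · intro h
      obtain ⟨u, hu, hT⟩ := id h
      obtain ⟨vu, t1, t2⟩ := hM.val u hu
      rcases tsub vu hT with e | e | ⟨e, c⟩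
      · exact Or.inl ⟨e ▸ t1, fun k => hM.pkT hF k h⟩
      · exact Or.inl ⟨e ▸ t2, fun k => hM.pkT hF k h⟩
      · exact Or.inr ⟨u, ⟨hu, cap_ne vu c⟩, e⟩
  · rw [hC.mcell_I hR hM.hs]
    unfold FZ.mI CI
    rw [eP]
  · obtain ⟨-, t1, t2⟩ := hM.val u hu
    exact ⟨ho.l hC hR (lU t1.1), ho.l hC hR (lU t2.1), fun n => ho.new u ⟨hu, n⟩⟩

/-- The units that an output leaves on the first path of the disc. -/
def outU (F : FD J) (d : DD (Vx J)) (o : OD (Vx J)) : Set (Un J) :=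
  {u' | u'.s ∈ d.X ∩ o.X ∧ u'.s' ∈ d.X ∩ o.X ∧
    ((u'.x = u'.s ∧ F.ρ u'.s' = F.ρ u'.s + 1 ∧ u'.pk = ∅) ∨
      (u'.x ∈ o.X ∧ u'.x ∉ d.X ∧ F.Γ.Adj u'.s u'.x ∧ F.Γ.Adj u'.x u'.s' ∧
        F.ρ u'.s < F.ρ u'.s' ∧ u'.pk = Pk d o u'.x))}

/-- pockets of output units lie in the new outside -/
theorem out_pk {u : Un J} (hu : u ∈ outU F d o) {v : Vx J} (hv : v ∈ u.pk) : v ∈ o.Z := by
  rcases hu.2.2 with h | h
  · rw [h.2.2] at hv
    exact hv.elim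
  · rw [h.2.2.2.2.2] at hv
    exact hv.1

theorem T_U (hF : Lay F Pr) (hM : MVal F Pr M) {v : Vx J} (hv : v ∈ M.T) : v ∈ F.U (F.f M.s) := by
  obtain ⟨u, hu, hT⟩ := hv
  exact hM.lev hF hu ▸ hF.luU (tLU (hM.val u hu).1 hT)

theorem MC.nZ (hd : MC F M d) {v : Vx J} :
    v ∉ d.Z ↔ v ∈ F.Bot M.s M.s' ∨ v ∈ M.T ∨ v ∈ CI F M := by
  rw [← hd.eX, ← hd.eY, ← hd.eI, DD.mem_I]
  constructor
  · intro h
    by_cases h1 : v ∈ d.X
    · exact Or.inl h1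
    by_cases h2 : v ∈ d.Y
    · exact Or.inr (Or.inl h2)
    · exact Or.inr (Or.inr ⟨h, h1, h2⟩)
  · rintro (h | h | h)
    exacts [hd.disc.xz h, hd.disc.yz h, h.1]

theorem MC.low_bot (hF : Lay F Pr) (hM : MVal F Pr M) (hd : MC F M d) {v : Vx J} (hv : v ∉ d.Z)
    (hl : v ∈ F.L (F.f M.s - 1)) : v ∈ d.X := by
  have h1 := hF.lf _ _ hl
  rcases hd.nZ.1 hv with h | h | h
  · exact hd.eX ▸ h
  · have := hF.ge _ _ (T_U hF hM h)
    omega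
  · have := hF.ge _ _ (ciU hF hM h)
    omega

theorem MC.rx' (hd : MC F M d) {v : Vx J} (hv : v ∈ d.X) : d.ρ v = F.ρ v := hd.rx v (hd.eX ▸ hv)

theorem MC.xb (hd : MC F M d) {v : Vx J} (hv : v ∈ d.X) : v ∈ F.Bot M.s M.s' := hd.eX ▸ hv

theorem MC.bx (hd : MC F M d) {v : Vx J} (hv : v ∈ F.Bot M.s M.s') : v ∈ d.X := hd.eX ▸ hv

/-- The apex lemma in the coordinates of the frame. -/
theorem MC.apex (hd : MC F M d) (h : Shp F.Γ d S o) {x : Vx J} (hx : x ∈ o.X) (hn : x ∉ d.X) :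
    ∃ t t', t ∈ d.X ∧ t ∈ o.X ∧ t' ∈ d.X ∧ t' ∈ o.X ∧ F.Γ.Adj t x ∧
      F.Γ.Adj x t' ∧ F.ρ t < o.ρ x ∧ o.ρ x < F.ρ t' ∧
      (∀ z ∈ o.X, F.Γ.Adj x z → z = t ∨ z = t') ∧
      (∀ v ∈ d.X, (F.ρ t < F.ρ v ∧ F.ρ v < F.ρ t') ↔ (v ∈ o.Z ∧ o.ax v = x)) ∧
      ∃ v ∈ d.X, F.ρ t < F.ρ v ∧ F.ρ v < F.ρ t' := by
  obtain ⟨t, t', h1, h2, h3, h4, h5, h6, h7, h8, h9, h10, v, hv, h11⟩ := h.apex hd.disc hx hn
  rw [hd.rx' h1] at h7
  rw [hd.rx' h3] at h8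
  rw [hd.rx' h1, hd.rx' h3, hd.rx' hv] at h11
  refine ⟨t, t', h1, h2, h3, h4, h5, h6, h7, h8, h9, fun w hw => ?_, v, hv, h11⟩
  rw [← h10 w hw, hd.rx' h1, hd.rx' h3, hd.rx' hw]

theorem MC.apex' (hd : MC F M d) (h : Shp F.Γ d S o) {x t t' : Vx J}
    (hx : x ∈ o.X) (hn : x ∉ d.X) (ht : t ∈ o.X) (ht' : t' ∈ o.X)
    (e : F.Γ.Adj t x) (e' : F.Γ.Adj x t') (l : F.ρ t < F.ρ t') :
    (∀ z ∈ o.X, F.Γ.Adj x z → z = t ∨ z = t') ∧
      (∀ v ∈ d.X, (F.ρ t < F.ρ v ∧ F.ρ v < F.ρ t') ↔ (v ∈ o.Z ∧ o.ax v = x)) ∧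
      ∃ v ∈ d.X, F.ρ t < F.ρ v ∧ F.ρ v < F.ρ t' := by
  obtain ⟨r, r', -, -, -, -, -, -, h7, h8, h9, h10, h11⟩ := hd.apex h hx hn
  rcases h9 t ht e.symm with rfl | rfl <;> rcases h9 t' ht' e' with rfl | rfl
  · exact absurd l (lt_irrefl _)
  · exact ⟨h9, h10, h11⟩
  · omega
  · exact absurd l (lt_irrefl _)

theorem MC.pk_nT (hd : MC F M d) (h : Shp F.Γ d S o) {x v : Vx J}
    (hx : x ∈ o.X) (hv : v ∈ Pk d o x) : v ∉ d.Y := by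
  intro hT
  have h1 : o.ax v ∈ o.Y := (h.swap.hidden hd.disc.swap hT hv.1).1
  rw [hv.2.2] at h1
  exact h.xy hx h1

theorem MC.cap (hF : Lay F Pr) (hM : MVal F Pr M) (hd : MC F M d) (h : Shp F.Γ d S o) {u' : Un J}
    (hs : u'.s ∈ d.X ∩ o.X) (hs' : u'.s' ∈ d.X ∩ o.X)
    (hx : u'.x ∈ o.X) (hn : u'.x ∉ d.X) (e : F.Γ.Adj u'.s u'.x)
    (e' : F.Γ.Adj u'.x u'.s') (l : F.ρ u'.s < F.ρ u'.s') (hp : u'.pk = Pk d o u'.x) :
    Cap F ∅ u' := by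
  obtain ⟨a1, a2, v0, hv0, a3⟩ := hd.apex' h hx hn hs.2 hs'.2 e e' l
  have D := hd.disc
  have hf : F.f u'.s = F.f M.s - 1 := hF.lf _ _ (hd.xb hs.1).1
  have hf' : F.f u'.s + 1 = F.f M.s := by omega
  have hxI : u'.x ∈ d.I := h.new_I hx hn
  have b1 := (hd.xb hs.1).2.1
  have b2 := (hd.xb hs'.1).2.2
  have hlt : F.ρ u'.s + 1 < F.ρ u'.s' := by omega
  refine ⟨hlt, ?_, e, e', ?_, ?_, ?_, ?_, ?_, ?_, ?_⟩
  · rw [hf']
    exact ciU hF hM (hd.eI ▸ hxI)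
  · intro z hz ez
    have hz' : z ∈ F.L (F.f M.s - 1) := hf ▸ hz
    have hzB := hd.low_bot hF hM (D.iz hxI ez) hz'
    rcases h.xx hzB with h1 | h1
    · rcases a1 z h1 ez with rfl | rfl
      · exact ⟨hz, le_rfl, l.le⟩
      · exact ⟨hz, l.le, le_rfl⟩
    · rcases h.pk z h1 (D.xz hzB) _ ez.symm with h2 | h2 | h2 | ⟨h2, h3 | h3⟩
      · exact absurd h2 (DD.mem_I.1 hxI).1
      · exact absurd h2.1 (h.xz hx)
      · have h3 := (a2 z hzB).2 ⟨h1, h2.symm⟩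
        exact ⟨hz, h3.1.le, h3.2.le⟩
      · rcases h.nx _ hx _ h3.2 h2 with h4 | h4
        · exact absurd h4 hn
        · exact absurd h4 (h.hidden D hzB h1).2
      · exact absurd h3.1 (h.xy hx)
  · rw [hp]
    exact fun h1 => h.xz hx h1.1
  · rw [hp]
    exact D.finc.subset fun v hv => hv.2.1
  · intro z hz
    have hz' : z ∈ F.L (F.f M.s - 1) := hf ▸ hz
    rw [hp]
    constructor
    · intro h1
      exact (a2 z (hd.low_bot hF hM h1.2.1 hz')).2 ⟨h1.1, h1.2.2⟩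
    · intro h1
      have hzB : z ∈ d.X := hd.bx ⟨hz', by omega, by omega⟩
      have h2 := (a2 z hzB).1 h1
      exact ⟨h2.1, D.xz hzB, h2.2⟩
  · rw [hp, hf', hf]
    intro v hv
    rcases hd.nZ.1 hv.2.1 with h1 | h1 | h1
    · exact Or.inl h1.1
    · exact Or.inr (T_U hF hM h1)
    · exact Or.inr (ciU hF hM h1)
  · rw [hp, hf', hf]
    intro v hv z ez hz
    have hzZ : z ∉ d.Z := by
      intro hzZ
      have hvX : v ∈ d.X := (D.old hv.2.1 hzZ ez).resolve_right (hd.pk_nT h hx hv)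
      have hvB := hd.xb hvX
      have h1 := (a2 v hvX).2 ⟨hv.1, hv.2.2⟩
      refine (hd.nZ.2 ?_) hzZ
      rcases hz with hz | hz
      · have h2 := (hF.adj_iff hvB.1 hz).1 ez
        exact Or.inl ⟨hz, by omega, by omega⟩
      · have h2 := hF.bot _ _ hM.hs _ hM.hs' hM.ps hM.ps' v hvB.1 (by omega) (by omega) z ez
        by_cases hL : z ∈ F.L (F.f M.s)
        · rcases top_mem hF hM (h2.2 hL) with h3 | h3
          · exact Or.inr (Or.inl h3)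
          · exact Or.inr (Or.inr (Or.inl h3))
        · refine Or.inr (Or.inr (Or.inr (h2.1 ⟨hz, ?_⟩)))
          rintro (h3 | h3)
          · exact hL h3
          · have c3 := hF.lf _ _ hvB.1
            rcases hF.bd _ _ h3 v ez.symm with c | c
            · have := hF.ge _ _ c
              omega
            · have := hF.lf _ _ c
              omega
    rcases h.pk v hv.1 hv.2.1 z ez with h2 | h2 | h2 | ⟨h2, h3 | h3⟩
    · exact absurd h2 hzZ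
    · exact Or.inl ⟨h2.1, hzZ, h2.2.trans hv.2.2⟩
    · exact Or.inr (Or.inr (Or.inl (h2.trans hv.2.2)))
    · rw [hv.2.2] at h2
      rcases a1 z h3.1 h2.symm with h4 | h4
      · exact Or.inr (Or.inl h4)
      · exact Or.inr (Or.inr (Or.inr h4))
    · have h4 := h3.2
      rw [hv.2.2] at h4
      exact absurd h4 (h.xy hx)
  · exact fun z _ hg => absurd hg (Set.notMem_empty z)

theorem MC.gap (hd : MC F M d) (h : Shp F.Γ d S o) {u' : Un J}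
    (hu' : u' ∈ outU F d o) {v : Vx J} (hv : v ∈ d.X ∩ o.X) :
    ¬ (F.ρ u'.s < F.ρ v ∧ F.ρ v < F.ρ u'.s') := by
  intro l
  obtain ⟨hs, hs', ⟨-, h1, -⟩ | ⟨hx, hn, e, e', l', -⟩⟩ := hu'
  · omega
  · exact h.xz hv.2 (((hd.apex' h hx hn hs.2 hs'.2 e e' l').2.1 v hv.1).1 l).1

/-- The units left by an output have the right shape. -/
theorem MC.mo (hF : Lay F Pr) (hM : MVal F Pr M) (hd : MC F M d) (h : Shp F.Γ d S o) :
    MO F M (outU F d o) := by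
  have D := hd.disc
  have lev : ∀ {v t : Vx J}, t ∈ d.X → v ∈ d.X → v ∈ F.L (F.f t) := by
    intro v t ht hv
    rw [hF.lf _ _ (hd.xb ht).1]
    exact (hd.xb hv).1
  refine ⟨?_, ?_, ?_, ?_, ?_⟩
  · rintro u' ⟨hs, hs', ha⟩
    refine ⟨⟨lev hs.1 hs.1, lev hs.1 hs'.1, ?_⟩, hd.xb hs.1, hd.xb hs'.1⟩
    rcases ha with ha | ⟨hx, hn, e, e', l, hp⟩
    · exact Or.inl ha
    · exact Or.inr (hd.cap hF hM h hs hs' hx hn e e' l hp)
  · rintro y ⟨hy0, ly⟩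
    have hy := hd.bx hy0
    rcases h.xx hy with h1 | h1
    · have hb : y ≠ d.b := by
        rintro rfl
        rw [hd.eb] at ly
        exact lt_irrefl _ ly
      obtain ⟨v, hv, l, e, -⟩ := h.px.succ h1 hb
      rw [h.rx y hy h1, hd.rx' hy] at l
      by_cases hvB : v ∈ d.X
      · rw [h.rx v hvB hv, hd.rx' hvB] at l
        have c := (hF.adj_iff hy0.1 (hd.xb hvB).1).1 e
        exact ⟨⟨y, y, v, ∅⟩, ⟨⟨hy, h1⟩, ⟨hvB, hv⟩, Or.inl ⟨rfl, by show F.ρ v = F.ρ y + 1; omega,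
          rfl⟩⟩, lev hy hy, le_rfl, l⟩
      · obtain ⟨t, t', a1, a2, a3, a4, a5, a6, a7, a8, a9, -⟩ := hd.apex h hv hvB
        rcases a9 y h1 e.symm with rfl | rfl
        · exact ⟨⟨y, v, t', Pk d o v⟩, ⟨⟨hy, h1⟩, ⟨a3, a4⟩,
            Or.inr ⟨hv, hvB, e, a6, lt_trans a7 a8, rfl⟩⟩, lev hy hy, le_rfl, lt_trans a7 a8⟩
        · omega
    · obtain ⟨hx, hn⟩ := h.hidden D hy h1
      obtain ⟨t, t', a1, a2, a3, a4, a5, a6, a7, a8, -, a10, -⟩ := hd.apex h hx hn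
      have c := (a10 y hy).2 ⟨h1, rfl⟩
      exact ⟨⟨t, o.ax y, t', Pk d o (o.ax y)⟩, ⟨⟨a1, a2⟩, ⟨a3, a4⟩,
        Or.inr ⟨hx, hn, a5, a6, lt_trans a7 a8, rfl⟩⟩, lev a1 hy, c.1.le, c.2⟩
  · intro u1 h1 u2 h2 y c1 c2
    have g1 := hd.gap h h1 h2.1
    have g2 := hd.gap h h2 h1.1
    have g3 := hd.gap h h1 h2.2.1
    have g4 := hd.gap h h2 h1.2.1
    have d1 := c1.2.1
    have d2 := c1.2.2
    have d3 := c2.2.1
    have d4 := c2.2.2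
    have es : u1.s = u2.s := hF.inj (hd.xb h1.1.1).1 (hd.xb h2.1.1).1 (by omega)
    have es' : u1.s' = u2.s' := hF.inj (hd.xb h1.2.1.1).1 (hd.xb h2.2.1.1).1 (by omega)
    obtain ⟨p1, p1', ⟨x1, r1, k1⟩ | ⟨hx1, hn1, e1, e1', l1, k1⟩⟩ := h1 <;>
      obtain ⟨p2, p2', ⟨x2, r2, k2⟩ | ⟨hx2, hn2, e2, e2', l2, k2⟩⟩ := h2
    · exact Un.ext es (by rw [x1, x2, es]) es' (by rw [k1, k2])
    · obtain ⟨v, -, l⟩ := (hd.apex' h hx2 hn2 p2.2 p2'.2 e2 e2' l2).2.2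
      rw [es, es'] at r1
      omega
    · obtain ⟨v, -, l⟩ := (hd.apex' h hx1 hn1 p1.2 p1'.2 e1 e1' l1).2.2
      rw [es, es'] at l
      omega
    · obtain ⟨-, a1, v, hv, l⟩ := hd.apex' h hx1 hn1 p1.2 p1'.2 e1 e1' l1
      have a2 := (hd.apex' h hx2 hn2 p2.2 p2'.2 e2 e2' l2).2.1
      have b1 := ((a1 v hv).1 l).2
      rw [es, es'] at l
      have b2 := ((a2 v hv).1 l).2
      have ex : u1.x = u2.x := b1.symm.trans b2
      exact Un.ext es ex es' (by rw [k1, k2, ex])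
  · rintro u' ⟨hs, hs', ha⟩ v (hv | hv)
    · rcases hv with rfl | rfl | rfl
      · exact Or.inl (hd.xb hs.1)
      · rcases ha with ha | ha
        · rw [ha.1]
          exact Or.inl (hd.xb hs.1)
        · exact Or.inr (hd.eI ▸ h.new_I ha.1 ha.2.1)
      · exact Or.inl (hd.xb hs'.1)
    · rcases ha with ha | ha
      · rw [ha.2.2] at hv
        exact hv.elim
      · rw [ha.2.2.2.2.2] at hv
        rcases hd.nZ.1 hv.2.1 with h1 | h1 | h1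
        · exact Or.inl h1
        · exact absurd (hd.eY ▸ h1) (hd.pk_nT h ha.1 hv)
        · exact Or.inr h1
  · rintro u1 ⟨-, -, a1⟩ u2 ⟨-, -, a2⟩ n1 n2 e
    have b1 := a1.resolve_left fun c => n1 c.1
    have b2 := a2.resolve_left fun c => n2 c.1
    rcases h.nx _ b1.1 _ b2.1 e with c | c
    · exact b1.2.1 c
    · exact b2.2.1 c

theorem MC.apex_unit (hd : MC F M d) (hs : Shp F.Γ d S o) {x : Vx J} (hx : x ∈ o.X)
    (hn : x ∉ d.X) : ∃ u' ∈ outU F d o, u'.x = x ∧ u'.x ≠ u'.s ∧ u'.pk = Pk d o x ∧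
      ∀ z ∈ o.X, F.Γ.Adj x z → z ∈ u'.T := by
  obtain ⟨p, q, p1, p2, q1, q2, e1, e2, l1, l2, h, -⟩ := hd.apex hs hx hn
  refine ⟨⟨p, x, q, Pk d o x⟩, ⟨⟨p1, p2⟩, ⟨q1, q2⟩,
    Or.inr ⟨hx, hn, e1, e2, lt_trans l1 l2, rfl⟩⟩, rfl, e1.ne', rfl, fun z hz e => ?_⟩
  rcases h z hz e with rfl | rfl
  · exact Or.inl rfl
  · exact Or.inr (Or.inr rfl)

theorem triv_unit {p q : Vx J} (hp : p ∈ d.X ∩ o.X) (hq : q ∈ d.X ∩ o.X)
    (e : F.ρ q = F.ρ p + 1) : (⟨p, p, q, ∅⟩ : Un J) ∈ outU F d o :=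
  ⟨hp, hq, Or.inl ⟨rfl, e, rfl⟩⟩

/-- The part coloured from the cell is the part that the disc lemmas colour. -/
theorem MC.mm_eq (hd : MC F M d) (hs : Shp F.Γ d S o) : MM F M (outU F d o) = MX d o := by
  ext v
  constructor
  · rintro ⟨h1, h2⟩
    rw [← hd.eI] at h1
    refine ⟨h1, ?_⟩
    have h3 := DD.mem_I.1 h1
    rintro (h | h)
    · obtain ⟨u', hu', e, -⟩ := hd.apex_unit hs h h3.2.1
      exact (h2 u' hu').1 (Or.inr (Or.inl e.symm))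
    · rcases hs.ap v h.1 h3.1 with h4 | h4
      · obtain ⟨u', hu', -, -, e, -⟩ := hd.apex_unit hs h4.1 h4.2
        apply (h2 u' hu').2
        rw [e]
        exact ⟨h.1, h3.1, rfl⟩
      · exact hs.xy h.2 h4.1
  · rintro ⟨h1, h2⟩
    refine ⟨hd.eI ▸ h1, ?_⟩
    rintro u' ⟨a, b, c⟩
    constructor
    · intro h
      apply h2
      left
      rcases h with h | h | h
      · rw [h]; exact a.2
      · rw [h]
        rcases c with c | c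
        · rw [c.1]; exact a.2
        · exact c.1
      · rw [h]; exact b.2
    · intro h
      rcases c with c | c
      · rw [c.2.2] at h; exact h
      · rw [c.2.2.2.2.2] at h
        exact h2 (Or.inr ⟨h.1, by rw [h.2.2]; exact c.1⟩)

end Pool.Agent.P.MP_08fd93_co.FM
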