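import Pool.Agent.P.MP_08fd93_co.OV.Base2

/-! Dynamic layer for the full statement: definitions (layers, profiles, macro cells). -/

set_option autoImplicit false

namespace Pool.Agent.P.MP_08fd93_co.FM

open OV

variable {J : Type}

/-- Static rows and strips; rungs `x - an x` are used only at the vertices of `Pr`. -/
structure Lay (F : FD J) (Pr : Set (Vx J)) : Prop where
  fine : Fine F.Γ
  nj : NJ F.Γ Set.univ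
  per : ∀ a x, F.f (tr a x) = F.f x + F.η a
  ker : ∀ a, F.η a = 0 ↔ ∃ k : ℤ, a = k • F.w
  gen : ∃ b, 0 < F.η b ∧ ∀ a, F.η b ∣ F.η a
  ge : ∀ j, ∀ x ∈ F.U j, j ≤ F.f x
  big : ∃ M : ℤ, 0 ≤ M ∧ ∀ j x, j + M ≤ F.f x → x ∈ F.U j
  umono : ∀ j j', j ≤ j' → F.U j' ⊆ F.U j
  utr : ∀ a j x, tr a x ∈ F.U (j + F.η a) ↔ x ∈ F.U j
  ltr : ∀ a j x, tr a x ∈ F.L (j + F.η a) ↔ x ∈ F.L j
  str : ∀ a j x, tr a x ∈ F.St (j + F.η a) ↔ x ∈ F.St j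
  lf : ∀ j, ∀ x ∈ F.L j, F.f x = j
  lu : ∀ j, F.L j ⊆ F.U j
  bd : ∀ j, ∀ x ∈ F.U j, ∀ y, F.Γ.Adj x y → y ∈ F.U j ∨ y ∈ F.L (j - 1)
  mem : ∀ j x, x ∈ F.L j ↔ ∃ i, x = F.l j i
  rho : ∀ j i, F.ρ (F.l j i) = i
  adj : ∀ j i i', F.Γ.Adj (F.l j i) (F.l j i') ↔ i' = i + 1 ∨ i = i' + 1
  lw : ∀ j i, tr F.w (F.l j i) = F.l j (i + F.nn j)
  n2 : ∀ j, 2 ≤ F.nn j
  ltr' : ∀ a j, ∃ κ, ∀ i, tr a (F.l j i) = F.l (j + F.η a) (i + κ)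
  pinv : ∀ a, ∀ x ∈ Pr, tr a x ∈ Pr
  anL : ∀ j, ∀ s ∈ F.L j, s ∈ Pr → F.an s ∈ F.L (j - 1)
  atr : ∀ a, ∀ x ∈ Pr, F.an (tr a x) = tr a (F.an x)
  amono : ∀ j, ∀ s ∈ F.L j, ∀ t ∈ F.L j, s ∈ Pr → t ∈ Pr → F.ρ s ≤ F.ρ t →
    F.ρ (F.an s) ≤ F.ρ (F.an t)
  ex : ∀ j, ∀ v ∈ F.St j, ∃ s ∈ F.L j, ∃ s' ∈ F.L j, s ∈ Pr ∧ s' ∈ Pr ∧ F.ρ s < F.ρ s' ∧
    (∀ t ∈ F.L j, t ∈ Pr → F.ρ t ≤ F.ρ s ∨ F.ρ s' ≤ F.ρ t) ∧ v ∈ F.SI s s'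
  dis : ∀ j, ∀ s ∈ F.L j, ∀ s' ∈ F.L j, ∀ t ∈ F.L j, ∀ t' ∈ F.L j, s ∈ Pr → s' ∈ Pr → t ∈ Pr →
    t' ∈ Pr → F.ρ s' ≤ F.ρ t → Disjoint (F.SI s s') (F.SI t t')
  top : ∀ j, ∀ s ∈ F.L j, ∀ s' ∈ F.L j, s ∈ Pr → s' ∈ Pr → ∀ h ∈ F.L j, F.ρ s < F.ρ h →
    F.ρ h < F.ρ s' →
    ∀ z, F.Γ.Adj h z → (z ∈ F.St j → z ∈ F.SI s s') ∧ (z ∈ F.L (j - 1) → z ∈ F.Bot s s')
  bot : ∀ j, ∀ s ∈ F.L j, ∀ s' ∈ F.L j, s ∈ Pr → s' ∈ Pr → ∀ h ∈ F.L (j - 1),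
    F.ρ (F.an s) < F.ρ h → F.ρ h < F.ρ (F.an s') →
    ∀ z, F.Γ.Adj h z → (z ∈ F.St j → z ∈ F.SI s s') ∧ (z ∈ F.L j → z ∈ F.Top s s')

/-- The trivial unit of the edge named by `y`. -/
def Tv (F : FD J) (y : Vx J) : Un J := ⟨y, y, F.nx y, ∅⟩

/-- A profile: valid units that tile all rows. -/
structure Prof (F : FD J) (Q : Set (Un J)) : Prop where
  val : ∀ u ∈ Q, Val F ∅ u
  cov : ∀ y ∈ F.LA, ∃ u ∈ Q, F.Cov u y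
  uni : ∀ u1 ∈ Q, ∀ u2 ∈ Q, ∀ y, F.Cov u1 y → F.Cov u2 y → u1 = u2
  nadj : ∀ u1 ∈ Q, ∀ u2 ∈ Q, F.f u1.s = F.f u2.s → u1.x ≠ u1.s → u2.x ≠ u2.s →
    ¬ F.Γ.Adj u1.x u2.x

/-- A macro cell: the interval from `s` to `s'` and the units that tile it. -/
@[ext] structure MU (J : Type) where
  s : Vx J
  s' : Vx J
  us : Set (Un J)

/-- Translation of a macro cell. -/
def MU.act (a : ℤ × ℤ) (M : MU J) : MU J := ⟨tr a M.s, tr a M.s', Un.act a '' M.us⟩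

/-- The top path of a macro cell. -/
def MU.T (M : MU J) : Set (Vx J) := {v | ∃ u ∈ M.us, v ∈ u.T}

/-- The pockets of the top path. -/
def MU.Pk (M : MU J) : Set (Vx J) := {v | ∃ u ∈ M.us, v ∈ u.pk}

/-- The interior of a macro cell. -/
def CI (F : FD J) (M : MU J) : Set (Vx J) := M.Pk ∪ F.SI M.s M.s'

/-- The part of the macro cell that is coloured from the cell. -/
def MM (F : FD J) (M : MU J) (O : Set (Un J)) : Set (Vx J) :=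
  {v | v ∈ CI F M ∧ ∀ u' ∈ O, v ∉ u'.T ∧ v ∉ u'.pk}

/-- A valid macro cell: a run of units between two consecutive visible vertices of `Pr`. -/
structure MVal (F : FD J) (Pr : Set (Vx J)) (M : MU J) : Prop where
  hs : M.s ∈ F.L (F.f M.s)
  hs' : M.s' ∈ F.L (F.f M.s)
  ps : M.s ∈ Pr
  ps' : M.s' ∈ Pr
  lt : F.ρ M.s < F.ρ M.s'
  val : ∀ u ∈ M.us, Val F ∅ u ∧ u.s ∈ F.Top M.s M.s' ∧ u.s' ∈ F.Top M.s M.s'
  cov : ∀ y ∈ F.Top M.s M.s', F.ρ y < F.ρ M.s' → ∃ u ∈ M.us, F.Cov u y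
  uni : ∀ u1 ∈ M.us, ∀ u2 ∈ M.us, ∀ y, F.Cov u1 y → F.Cov u2 y → u1 = u2
  nadj : ∀ u1 ∈ M.us, ∀ u2 ∈ M.us, u1.x ≠ u1.s → u2.x ≠ u2.s → ¬ F.Γ.Adj u1.x u2.x
  mx : ∀ u ∈ M.us, u.s ∈ Pr → u.s = M.s

/-- The macro cells of a profile. -/
def mac (F : FD J) (Pr : Set (Vx J)) (Q : Set (Un J)) : Set (MU J) :=
  {M | MVal F Pr M ∧ M.us ⊆ Q}

/-- The edge named by `y` lies on the bottom of the macro cell. -/
def Over (F : FD J) (M : MU J) (y : Vx J) : Prop :=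
  y ∈ F.Bot M.s M.s' ∧ F.ρ y < F.ρ (F.an M.s')

/-- The shape of the output of a macro cell. -/
structure MO (F : FD J) (M : MU J) (O : Set (Un J)) : Prop where
  val : ∀ u' ∈ O, Val F ∅ u' ∧ u'.s ∈ F.Bot M.s M.s' ∧ u'.s' ∈ F.Bot M.s M.s'
  cov : ∀ y, Over F M y → ∃ u' ∈ O, F.Cov u' y
  uni : ∀ u1 ∈ O, ∀ u2 ∈ O, ∀ y, F.Cov u1 y → F.Cov u2 y → u1 = u2
  sub : ∀ u' ∈ O, u'.T ∪ u'.pk ⊆ F.Bot M.s M.s' ∪ CI F M
  nadj : ∀ u1 ∈ O, ∀ u2 ∈ O, u1.x ≠ u1.s → u2.x ≠ u2.s → ¬ F.Γ.Adj u1.x u2.x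

/-- A consistent periodic system of units with the outputs of its macro cells. -/
structure MSol (F : FD J) (Pr : Set (Vx J)) (Q : Set (Un J)) (O : MU J → Set (Un J)) : Prop where
  prof : Prof F Q
  inv : ∀ a, ∀ u ∈ Q, u.act a ∈ Q
  vis : ∀ j, ∃ u ∈ Q, F.f u.s = j ∧ u.s ∈ Pr
  mo : ∀ M ∈ mac F Pr Q, MO F M (O M)
  fix : ∀ u', u' ∈ Q ↔ ∃ M ∈ mac F Pr Q, u' ∈ O M
  eqv : ∀ a M, O (M.act a) = Un.act a '' O M

/-! ### Toolbox -/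

variable {F : FD J} {Pr : Set (Vx J)}

theorem Lay.l_mem (h : Lay F Pr) (j i : ℤ) : F.l j i ∈ F.L j := (h.mem j _).2 ⟨i, rfl⟩

theorem Lay.f_l (h : Lay F Pr) (j i : ℤ) : F.f (F.l j i) = j := h.lf j _ (h.l_mem j i)

theorem Lay.l_rho (h : Lay F Pr) {j : ℤ} {x : Vx J} (hx : x ∈ F.L j) : F.l j (F.ρ x) = x := by
  obtain ⟨i, rfl⟩ := (h.mem j x).1 hx
  rw [h.rho]

theorem Lay.inj (h : Lay F Pr) {j : ℤ} {x y : Vx J} (hx : x ∈ F.L j) (hy : y ∈ F.L j)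
    (e : F.ρ x = F.ρ y) : x = y := by
  rw [← h.l_rho hx, ← h.l_rho hy, e]

theorem Lay.adj_iff (h : Lay F Pr) {j : ℤ} {x y : Vx J} (hx : x ∈ F.L j) (hy : y ∈ F.L j) :
    F.Γ.Adj x y ↔ F.ρ y = F.ρ x + 1 ∨ F.ρ x = F.ρ y + 1 := by
  rw [← h.adj j, h.l_rho hx, h.l_rho hy]

theorem Lay.la (h : Lay F Pr) {j : ℤ} {x : Vx J} (hx : x ∈ F.L j) : x ∈ F.LA := by
  show x ∈ F.L (F.f x)
  rwa [h.lf j x hx]

theorem Lay.nx_l (h : Lay F Pr) (j i : ℤ) : F.nx (F.l j i) = F.l j (i + 1) := by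
  rw [FD.nx, h.f_l, h.rho]

theorem Lay.nx_mem (h : Lay F Pr) {j : ℤ} {x : Vx J} (hx : x ∈ F.L j) :
    F.nx x ∈ F.L j ∧ F.ρ (F.nx x) = F.ρ x + 1 ∧ F.Γ.Adj x (F.nx x) := by
  obtain ⟨i, rfl⟩ := (h.mem j x).1 hx
  rw [h.nx_l, h.rho, h.rho]
  exact ⟨h.l_mem _ _, rfl, (h.adj j _ _).2 (Or.inl rfl)⟩

theorem Lay.nx_tr (h : Lay F Pr) (a : ℤ × ℤ) {j : ℤ} {x : Vx J} (hx : x ∈ F.L j) :
    F.nx (tr a x) = tr a (F.nx x) := by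
  obtain ⟨κ, hκ⟩ := h.ltr' a j
  obtain ⟨i, rfl⟩ := (h.mem j x).1 hx
  rw [h.nx_l, hκ, hκ, h.nx_l, add_right_comm]

theorem Lay.eta_w (h : Lay F Pr) (k : ℤ) : F.η (k • F.w) = 0 := (h.ker _).2 ⟨k, rfl⟩

theorem Lay.lw_int (h : Lay F Pr) (k j i : ℤ) :
    tr (k • F.w) (F.l j i) = F.l j (i + k * F.nn j) := by
  induction k using Int.induction_on generalizing i with
  | zero => simp [tr_zero]
  | succ k ih => rw [add_smul, one_smul, ← tr_tr, ih, h.lw]; congr 1; ring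
  | pred k ih =>
    apply tr_inj F.w
    rw [tr_tr, sub_smul, one_smul, sub_add_cancel, ih, h.lw]
    congr 1
    ring

theorem Lay.w_mem (h : Lay F Pr) (k : ℤ) {j : ℤ} {x : Vx J} (hx : x ∈ F.L j) :
    tr (k • F.w) x ∈ F.L j ∧ F.ρ (tr (k • F.w) x) = F.ρ x + k * F.nn j := by
  obtain ⟨i, rfl⟩ := (h.mem j x).1 hx
  rw [h.lw_int, h.rho, h.rho]
  exact ⟨h.l_mem _ _, rfl⟩

theorem Lay.rd (h : Lay F Pr) (a : ℤ × ℤ) {j : ℤ} {x y : Vx J} (hx : x ∈ F.L j) (hy : y ∈ F.L j) :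
    F.ρ (tr a x) + F.ρ y = F.ρ (tr a y) + F.ρ x := by
  obtain ⟨κ, hκ⟩ := h.ltr' a j
  obtain ⟨i, rfl⟩ := (h.mem j x).1 hx
  obtain ⟨i', rfl⟩ := (h.mem j y).1 hy
  simp only [hκ, h.rho]
  ring

theorem Lay.p_tr (h : Lay F Pr) (a : ℤ × ℤ) (x : Vx J) : tr a x ∈ Pr ↔ x ∈ Pr := by
  refine ⟨fun e => ?_, h.pinv a x⟩
  have := h.pinv (-a) _ e
  rwa [tr_neg] at this

theorem tr_surj (a : ℤ × ℤ) : Function.Surjective (tr a : Vx J → Vx J) :=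
  fun x => ⟨tr (-a) x, tr_neg' a x⟩

theorem mem_T (a : ℤ × ℤ) (u : Un J) (v : Vx J) : tr a v ∈ (u.act a).T ↔ v ∈ u.T := by
  simp only [Un.T, Un.act, Set.mem_insert_iff, Set.mem_singleton_iff, (tr_inj a).eq_iff]

theorem mem_pk (a : ℤ × ℤ) (u : Un J) (v : Vx J) : tr a v ∈ (u.act a).pk ↔ v ∈ u.pk :=
  (tr_inj a).mem_set_image

theorem MU.act_zero (M : MU J) : M.act 0 = M := by
  ext <;> simp [MU.act, tr, Un.act_zero]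

theorem MU.act_act (a b : ℤ × ℤ) (M : MU J) : (M.act b).act a = M.act (b + a) := by
  simp only [MU.act, tr_tr, Set.image_image, Un.act_act]

theorem Lay.l_tr (h : Lay F Pr) (a : ℤ × ℤ) (s z : Vx J) :
    tr a z ∈ F.L (F.f (tr a s)) ↔ z ∈ F.L (F.f s) := by
  rw [h.per]
  exact h.ltr a _ z

theorem Lay.l_tr' (h : Lay F Pr) (a : ℤ × ℤ) (s z : Vx J) :
    tr a z ∈ F.L (F.f (tr a s) - 1) ↔ z ∈ F.L (F.f s - 1) := by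
  rw [h.per, add_sub_right_comm]
  exact h.ltr a _ z

theorem Lay.u_tr (h : Lay F Pr) (a : ℤ × ℤ) (s z : Vx J) :
    tr a z ∈ F.U (F.f (tr a s) + 1) ↔ z ∈ F.U (F.f s + 1) := by
  rw [h.per, add_right_comm]
  exact h.utr a _ z

theorem Lay.st_tr (h : Lay F Pr) (a : ℤ × ℤ) (s z : Vx J) :
    tr a z ∈ F.St (F.f (tr a s)) ↔ z ∈ F.St (F.f s) := by
  rw [h.per]
  exact h.str a _ z

theorem Lay.la_tr (h : Lay F Pr) (a : ℤ × ℤ) (x : Vx J) : tr a x ∈ F.LA ↔ x ∈ F.LA :=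
  h.l_tr a x x

theorem Lay.top_tr (h : Lay F Pr) {s s' : Vx J} (hs : s ∈ F.L (F.f s)) (hs' : s' ∈ F.L (F.f s))
    (a : ℤ × ℤ) (z : Vx J) : tr a z ∈ F.Top (tr a s) (tr a s') ↔ z ∈ F.Top s s' := by
  simp only [FD.Top, Set.mem_ofPred_eq, h.l_tr]
  refine and_congr_right fun hz => ?_
  have h1 := h.rd a hz hs
  have h2 := h.rd a hz hs'
  omega

theorem Lay.bot_tr (h : Lay F Pr) {s s' : Vx J} (hs : s ∈ F.L (F.f s)) (hs' : s' ∈ F.L (F.f s))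
    (ps : s ∈ Pr) (ps' : s' ∈ Pr) (a : ℤ × ℤ) (z : Vx J) :
    tr a z ∈ F.Bot (tr a s) (tr a s') ↔ z ∈ F.Bot s s' := by
  simp only [FD.Bot, Set.mem_ofPred_eq, h.l_tr', h.atr a s ps, h.atr a s' ps']
  refine and_congr_right fun hz => ?_
  have h1 := h.rd a hz (h.anL _ _ hs ps)
  have h2 := h.rd a hz (h.anL _ _ hs' ps')
  omega

theorem Lay.conn_tr (h : Lay F Pr) (a : ℤ × ℤ) {A B : Set (Vx J)} (e : ∀ x, tr a x ∈ B ↔ x ∈ A)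
    (p q : Vx J) : Conn F.Γ B (tr a p) (tr a q) ↔ Conn F.Γ A p q := by
  refine ⟨fun hc => ?_, h.fine.conn_tr a fun x hx => (e x).2 hx⟩
  have := h.fine.conn_tr (-a) (B := A) (fun x hx => (e _).1 (by rwa [tr_neg'])) hc
  rwa [tr_neg, tr_neg] at this

theorem Lay.si_tr (h : Lay F Pr) {s s' : Vx J} (hs : s ∈ F.L (F.f s)) (hs' : s' ∈ F.L (F.f s))
    (ps : s ∈ Pr) (ps' : s' ∈ Pr) (a : ℤ × ℤ) (v : Vx J) :
    tr a v ∈ F.SI (tr a s) (tr a s') ↔ v ∈ F.SI s s' := by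
  simp only [FD.SI, Set.mem_ofPred_eq]
  refine and_congr (h.st_tr a s v) ?_
  rw [(tr_surj a).forall₂]
  simp only [h.conn_tr a (h.st_tr a s), h.fine.adj_tr, h.st_tr, h.bot_tr hs hs' ps ps',
    h.top_tr hs hs']

theorem Lay.cov_tr (h : Lay F Pr) (a : ℤ × ℤ) {u : Un J} (y : Vx J) (hu : Val F ∅ u) :
    F.Cov (u.act a) (tr a y) ↔ F.Cov u y := by
  simp only [FD.Cov, Un.act, h.l_tr]
  refine and_congr_right fun hz => ?_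
  have h1 := h.rd a hz hu.hs
  have h2 := h.rd a hz hu.hs'
  omega

theorem Lay.val_tr (hF : Lay F Pr) (a : ℤ × ℤ) {u : Un J} (hu : Val F ∅ u) :
    Val F ∅ (u.act a) := by
  have inv := hF.fine.inv
  have hρ := hF.rd a hu.hs hu.hs'
  refine ⟨(hF.l_tr a u.s u.s).2 hu.hs, (hF.l_tr a u.s u.s').2 hu.hs', ?_⟩
  rcases hu.alt with ⟨h1, h2, h3⟩ | h
  · refine Or.inl ⟨congrArg (tr a) h1, ?_, ?_⟩
    · show F.ρ (tr a u.s') = F.ρ (tr a u.s) + 1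
      omega
    · show tr a '' u.pk = ∅
      rw [h3, Set.image_empty]
  · refine Or.inr ⟨?_, (hF.u_tr a u.s u.x).2 h.xu, inv a _ _ h.sx, inv a _ _ h.xs, ?_,
      fun e => h.xp ((mem_pk a u u.x).1 e), h.fin.image _, ?_, ?_, ?_, ?_⟩
    · show F.ρ (tr a u.s) + 1 < F.ρ (tr a u.s')
      have := h.lt
      omega
    · intro z hz hxz
      obtain ⟨z, rfl⟩ := tr_surj a z
      exact (hF.top_tr hu.hs hu.hs' a z).2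
        (h.xn z ((hF.l_tr a u.s z).1 hz) ((hF.fine.adj_tr a u.x z).1 hxz))
    · intro z hz
      obtain ⟨z, rfl⟩ := tr_surj a z
      have hz' := (hF.l_tr a u.s z).1 hz
      rw [mem_pk, h.old z hz']
      show _ ↔ F.ρ (tr a u.s) < F.ρ (tr a z) ∧ F.ρ (tr a z) < F.ρ (tr a u.s')
      have h1 := hF.rd a hz' hu.hs
      omega
    · rintro _ ⟨z, hz, rfl⟩
      exact (h.sub hz).imp (hF.l_tr a u.s z).2 (hF.u_tr a u.s z).2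
    · rintro _ ⟨v, hv, rfl⟩ z hvz hz
      obtain ⟨z, rfl⟩ := tr_surj a z
      exact (h.cl v hv z ((hF.fine.adj_tr a v z).1 hvz)
        (hz.imp (hF.l_tr a u.s z).1 (hF.u_tr a u.s z).1)).imp (mem_pk a u z).2 (mem_T a u z).2
    · intro z _ hzG
      exact absurd hzG (Set.notMem_empty _)

theorem mT_tr (a : ℤ × ℤ) (M : MU J) (v : Vx J) : tr a v ∈ (M.act a).T ↔ v ∈ M.T := by
  simp only [MU.T, MU.act, Set.mem_ofPred_eq, Set.exists_mem_image, mem_T]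

theorem mP_tr (a : ℤ × ℤ) (M : MU J) (v : Vx J) : tr a v ∈ (M.act a).Pk ↔ v ∈ M.Pk := by
  simp only [MU.Pk, MU.act, Set.mem_ofPred_eq, Set.exists_mem_image, mem_pk]

theorem Lay.ci_tr (h : Lay F Pr) (a : ℤ × ℤ) {M : MU J} (hM : MVal F Pr M) (v : Vx J) :
    tr a v ∈ CI F (M.act a) ↔ v ∈ CI F M :=
  or_congr (mP_tr a M v) (h.si_tr hM.hs hM.hs' hM.ps hM.ps' a v)

theorem Lay.mm_tr (h : Lay F Pr) (a : ℤ × ℤ) {M : MU J} (hM : MVal F Pr M) (O : Set (Un J))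
    (v : Vx J) : tr a v ∈ MM F (M.act a) (Un.act a '' O) ↔ v ∈ MM F M O := by
  simp only [MM, Set.mem_ofPred_eq, h.ci_tr a hM, Set.forall_mem_image, mem_T, mem_pk]

theorem Lay.over_tr (h : Lay F Pr) (a : ℤ × ℤ) {M : MU J} (hM : MVal F Pr M) (y : Vx J) :
    Over F (M.act a) (tr a y) ↔ Over F M y := by
  refine (and_congr_left fun _ => h.bot_tr hM.hs hM.hs' hM.ps hM.ps' a y).trans ?_
  refine and_congr_right fun hy => ?_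
  show F.ρ (tr a y) < F.ρ (F.an (tr a M.s')) ↔ _
  rw [h.atr a _ hM.ps']
  have := h.rd a hy.1 (h.anL _ _ hM.hs' hM.ps')
  omega

theorem Lay.mval_tr (h : Lay F Pr) (a : ℤ × ℤ) {M : MU J} (hM : MVal F Pr M) :
    MVal F Pr (M.act a) := by
  have ht := h.top_tr hM.hs hM.hs' a
  refine ⟨(h.l_tr a M.s M.s).2 hM.hs, (h.l_tr a M.s M.s').2 hM.hs', h.pinv a _ hM.ps,
    h.pinv a _ hM.ps', ?_, ?_, ?_, ?_, ?_, ?_⟩
  · show F.ρ (tr a M.s) < F.ρ (tr a M.s')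
    have := h.rd a hM.hs hM.hs'
    have := hM.lt
    omega
  · rintro _ ⟨u, hu, rfl⟩
    obtain ⟨h1, h2, h3⟩ := hM.val u hu
    exact ⟨h.val_tr a h1, (ht _).2 h2, (ht _).2 h3⟩
  · intro y hy hlt
    obtain ⟨y, rfl⟩ := tr_surj a y
    have hy' := (ht y).1 hy
    have e := h.rd a hy'.1 hM.hs'
    have hlt' : F.ρ (tr a y) < F.ρ (tr a M.s') := hlt
    obtain ⟨u, hu, hc⟩ := hM.cov y hy' (by omega)
    exact ⟨u.act a, ⟨u, hu, rfl⟩, (h.cov_tr a y (hM.val u hu).1).2 hc⟩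
  · rintro _ ⟨u1, h1, rfl⟩ _ ⟨u2, h2, rfl⟩ y c1 c2
    obtain ⟨y, rfl⟩ := tr_surj a y
    rw [hM.uni u1 h1 u2 h2 y ((h.cov_tr a y (hM.val u1 h1).1).1 c1)
      ((h.cov_tr a y (hM.val u2 h2).1).1 c2)]
  · rintro _ ⟨u1, h1, rfl⟩ _ ⟨u2, h2, rfl⟩ n1 n2 hadj
    exact hM.nadj u1 h1 u2 h2 (fun e => n1 (congrArg (tr a) e)) (fun e => n2 (congrArg (tr a) e))
      ((h.fine.adj_tr a u1.x u2.x).1 hadj)
  · rintro _ ⟨u, hu, rfl⟩ hp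
    exact congrArg (tr a) (hM.mx u hu ((h.p_tr a _).1 hp))

theorem Lay.mo_tr (h : Lay F Pr) (a : ℤ × ℤ) {M : MU J} {O : Set (Un J)} (hM : MVal F Pr M)
    (hO : MO F M O) : MO F (M.act a) (Un.act a '' O) := by
  have hb := h.bot_tr hM.hs hM.hs' hM.ps hM.ps' a
  refine ⟨?_, ?_, ?_, ?_, ?_⟩
  · rintro _ ⟨u', hu', rfl⟩
    obtain ⟨h1, h2, h3⟩ := hO.val u' hu'
    exact ⟨h.val_tr a h1, (hb _).2 h2, (hb _).2 h3⟩
  · intro y hy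
    obtain ⟨y, rfl⟩ := tr_surj a y
    obtain ⟨u', hu', hc⟩ := hO.cov y ((h.over_tr a hM y).1 hy)
    exact ⟨u'.act a, ⟨u', hu', rfl⟩, (h.cov_tr a y (hO.val u' hu').1).2 hc⟩
  · rintro _ ⟨u1, h1, rfl⟩ _ ⟨u2, h2, rfl⟩ y c1 c2
    obtain ⟨y, rfl⟩ := tr_surj a y
    rw [hO.uni u1 h1 u2 h2 y ((h.cov_tr a y (hO.val u1 h1).1).1 c1)
      ((h.cov_tr a y (hO.val u2 h2).1).1 c2)]
  · rintro _ ⟨u', hu', rfl⟩ z hz
    obtain ⟨z, rfl⟩ := tr_surj a z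
    exact (hO.sub u' hu' (hz.imp (mem_T a u' z).1 (mem_pk a u' z).1)).imp (hb z).2
      (h.ci_tr a hM z).2
  · rintro _ ⟨u1, h1, rfl⟩ _ ⟨u2, h2, rfl⟩ n1 n2 hadj
    exact hO.nadj u1 h1 u2 h2 (fun e => n1 (congrArg (tr a) e)) (fun e => n2 (congrArg (tr a) e))
      ((h.fine.adj_tr a u1.x u2.x).1 hadj)

theorem Lay.mac_tr (h : Lay F Pr) {Q : Set (Un J)} (hQ : ∀ a, ∀ u ∈ Q, u.act a ∈ Q) (a : ℤ × ℤ)
    {M : MU J} (hM : M ∈ mac F Pr Q) : M.act a ∈ mac F Pr Q := by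
  refine ⟨h.mval_tr a hM.1, ?_⟩
  rintro _ ⟨u, hu, rfl⟩
  exact hQ a u (hM.2 hu)

/-- The static cells grow with the interval. -/
theorem Lay.si_sub (h : Lay F Pr) {j : ℤ} {s s' t t' : Vx J} (hs : s ∈ F.L j) (hs' : s' ∈ F.L j)
    (ht : t ∈ F.L j) (ht' : t' ∈ F.L j) (ps : s ∈ Pr) (ps' : s' ∈ Pr) (pt : t ∈ Pr)
    (pt' : t' ∈ Pr) (l1 : F.ρ s ≤ F.ρ t) (l2 : F.ρ t' ≤ F.ρ s') : F.SI t t' ⊆ F.SI s s' := by
  have es := h.lf j s hs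
  have et := h.lf j t ht
  have m1 := h.amono j s hs t ht ps pt l1
  have m2 := h.amono j t' ht' s' hs' pt' ps' l2
  rintro v ⟨h1, h2⟩
  rw [et] at h1
  refine ⟨es ▸ h1, fun y z hc ha => ?_⟩
  rw [es] at hc
  rcases h2 y z (et ▸ hc) ha with e | e | e
  · exact Or.inl (by rw [es, ← et]; exact e)
  · obtain ⟨e1, e2, e3⟩ := e
    exact Or.inr (Or.inl ⟨by rw [es, ← et]; exact e1, by omega, by omega⟩)
  · obtain ⟨e1, e2, e3⟩ := e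
    exact Or.inr (Or.inr ⟨by rw [es, ← et]; exact e1, by omega, by omega⟩)

/-- A frame of project OV is a layer system with rungs everywhere. -/
theorem lay_of_frm (hF : Frm F) (hS : SIF F) : Lay F Set.univ := by
  refine ⟨hF.fine, hF.nj, hF.pot.per, hF.pot.ker, hF.pot.gen, hF.uf.ge, hF.uf.big, hF.uf.mono,
    hF.uf.utr, hF.uf.ltr, hF.uf.str, hF.uf.lf, hF.uf.lu, hF.uf.bd, hF.mem, hF.rho, hF.adj, hF.lw,
    hF.n2, hF.ltr, fun _ _ _ => trivial, fun j s hs _ => hF.an_mem hs,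
    fun a x _ => hF.pot.atr a x, fun j s hs t ht _ _ => hS.mono j s hs t ht, ?_,
    fun j s hs s' hs' t ht t' ht' _ _ _ _ => hS.dis j s hs s' hs' t ht t' ht',
    fun j s hs s' hs' _ _ => hS.top j s hs s' hs', fun j s hs s' hs' _ _ => hS.bot j s hs s' hs'⟩
  intro j v hv
  obtain ⟨s, hs, hv'⟩ := hS.ex j v hv
  obtain ⟨n1, n2, -⟩ := hF.nx_mem hs
  exact ⟨s, hs, _, n1, trivial, trivial, by omega, fun t _ _ => by omega, hv'⟩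

end Pool.Agent.P.MP_08fd93_co.FM
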