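import Pool.Agent.P.MP_08fd93_co.FM.M1

/-! Dynamic layer: interiors of macro cells, the next profile and the fixed point. -/

set_option autoImplicit false

namespace Pool.Agent.P.MP_08fd93_co.FM

open OV PkPrtP

variable {J : Type} {F : FD J} {Pr : Set (Vx J)} {Q : Set (Un J)}

theorem Lay.luU (hF : Lay F Pr) {j : ℤ} {v : Vx J} (h : v ∈ F.L j ∨ v ∈ F.U (j + 1)) :
    v ∈ F.U j := by
  rcases h with h | h
  · exact hF.lu j h
  · exact hF.umono j (j + 1) (by omega) h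

theorem Lay.pkpk (hF : Lay F Pr) {u1 u2 : Un J} (h1 : Val F ∅ u1) (h2 : Val F ∅ u2)
    (hl : F.f u1.s = F.f u2.s) (ha : F.ρ u1.s' ≤ F.ρ u2.s) {v : Vx J} (hv : v ∈ u1.pk)
    (hv2 : v ∈ u2.pk) : False := by
  have c1 := capOf h1 hv
  have c2 := capOf h2 hv2
  refine hF.nj (u1.pk ∩ u2.pk) (Set.subset_univ _) (c1.fin.inter_of_left _) ⟨v, hv, hv2⟩
    u1.s' u1.s' (Or.inl rfl) ?_
  rintro z ⟨y, ⟨hy1, hy2⟩, hadj⟩
  have hyU : y ∈ F.U (F.f u1.s + 1) := by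
    rcases c1.sub hy1 with h | h
    · have a1 := (c1.old _ h).1 hy1
      have a2 := (c2.old _ (hl ▸ h)).1 hy2
      omega
    · exact h
  have hz : z ∈ F.L (F.f u1.s) ∪ F.U (F.f u1.s + 1) := by
    rcases hF.bd _ _ hyU z hadj.symm with h | h
    · exact Or.inr h
    · rw [add_sub_cancel_right] at h
      exact Or.inl h
  rcases c1.cl _ hy1 z hadj.symm hz with a1 | a1 <;>
    rcases c2.cl _ hy2 z hadj.symm (hl ▸ hz) with a2 | a2
  · exact Or.inl ⟨a1, a2⟩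
  · exact (pkT h1 h2 hl (Or.inl ha) a1 a2).elim
  · exact (pkT h2 h1 hl.symm (Or.inr ha) a2 a1).elim
  · exact Or.inr (Or.inl (tT h1 h2 hl ha a1 a2))

/-- pockets of a profile miss the skeleton of their level -/
theorem Prof.pkT (hQ : Prof F Q) {u1 u2 : Un J} (h1 : u1 ∈ Q) (h2 : u2 ∈ Q)
    (hl : F.f u1.s = F.f u2.s) {v : Vx J} (hv : v ∈ u1.pk) (hT : v ∈ u2.T) : False := by
  by_cases hne : u1 = u2
  · subst hne
    exact pkT' (hQ.val _ h1) hv hT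
  · exact PkPrtP.pkT (hQ.val _ h1) (hQ.val _ h2) hl (hQ.ap h1 h2 hne hl) hv hT

theorem Prof.pkpk (hF : Lay F Pr) (hQ : Prof F Q) {u1 u2 : Un J} (h1 : u1 ∈ Q) (h2 : u2 ∈ Q)
    (hl : F.f u1.s = F.f u2.s) {v : Vx J} (hv : v ∈ u1.pk) (hv2 : v ∈ u2.pk) : u1 = u2 := by
  by_contra hne
  rcases hQ.ap h1 h2 hne hl with a | a
  · exact hF.pkpk (hQ.val _ h1) (hQ.val _ h2) hl a hv hv2
  · exact hF.pkpk (hQ.val _ h2) (hQ.val _ h1) hl.symm a hv2 hv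

theorem ciU (hF : Lay F Pr) {M : MU J} (hM : MVal F Pr M) {v : Vx J} (hv : v ∈ CI F M) :
    v ∈ F.U (F.f M.s) := by
  rcases hv with ⟨u, hu, h⟩ | h
  · exact hM.lev hF hu ▸ hF.luU (pLU (hM.val u hu).1 h)
  · exact h.1.1

theorem ciT (hF : Lay F Pr) (hQ : Prof F Q) {M : MU J} (hM : M ∈ mac F Pr Q) {u : Un J}
    (hu : u ∈ Q) (hl : F.f M.s = F.f u.s) {v : Vx J} (hv : v ∈ CI F M) (hT : v ∈ u.T) : False := by
  rcases hv with ⟨u1, h1, a⟩ | a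
  · exact hQ.pkT (hM.2 h1) hu ((hM.1.lev hF h1).trans hl) a hT
  · exact stNot a.1 (hl ▸ tLU (hQ.val _ hu) hT)

theorem cici (hF : Lay F Pr) (hQ : Prof F Q) {M1 M2 : MU J} (h1 : M1 ∈ mac F Pr Q)
    (h2 : M2 ∈ mac F Pr Q) (hl : F.f M1.s = F.f M2.s) {v : Vx J} (hv : v ∈ CI F M1)
    (hv2 : v ∈ CI F M2) : M1 = M2 := by
  rcases hv with ⟨u1, a1, a⟩ | a <;> rcases hv2 with ⟨u2, b1, b⟩ | b
  · have e := hQ.pkpk hF (h1.2 a1) (h2.2 b1)
      ((h1.1.lev hF a1).trans (hl.trans (h2.1.lev hF b1).symm)) a b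
    exact unit_uni hF hQ h1 h2 a1 (e ▸ b1)
  · exact (stNot b.1 (hl ▸ h1.1.lev hF a1 ▸ pLU (h1.1.val u1 a1).1 a)).elim
  · exact (stNot a.1 (hl ▸ h2.1.lev hF b1 ▸ pLU (h2.1.val u2 b1).1 b)).elim
  · rcases mac_ap hF hQ h1 h2 hl with e | e | e
    · exact e
    · exact (Set.disjoint_left.1 (hF.dis _ _ h1.1.hs _ h1.1.hs' _ (hl ▸ h2.1.hs) _ (hl ▸ h2.1.hs')
        h1.1.ps h1.1.ps' h2.1.ps h2.1.ps' e) a b).elim
    · exact (Set.disjoint_left.1 (hF.dis _ _ h2.1.hs _ h2.1.hs' _ (hl ▸ h1.1.hs) _ (hl ▸ h1.1.hs')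
        h2.1.ps h2.1.ps' h1.1.ps h1.1.ps' e) b a).elim

/-- a vertex covered by a valid unit is its left end or hidden -/
theorem cov_mem (hF : Lay F Pr) {u : Un J} (hv : Val F ∅ u) {z : Vx J} (hc : F.Cov u z) :
    z = u.s ∨ z ∈ u.pk := by
  rcases eq_or_lt_of_le hc.2.1 with h | h
  · exact Or.inl (hF.inj hc.1 hv.hs h.symm)
  · rcases hv.alt with h' | h'
    · have := hc.2.2
      omega
    · exact Or.inr ((h'.old z hc.1).2 ⟨h, hc.2.2⟩)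

theorem top_mem (hF : Lay F Pr) {M : MU J} (hM : MVal F Pr M) {z : Vx J}
    (hz : z ∈ F.Top M.s M.s') : z ∈ M.T ∨ z ∈ M.Pk := by
  rcases eq_or_lt_of_le hz.2.2 with h | h
  · obtain ⟨u, hu, e⟩ := hM.last hF
    exact Or.inl ⟨u, hu, Or.inr (Or.inr ((hF.inj hz.1 hM.hs' h).trans e.symm))⟩
  · obtain ⟨u, hu, hc⟩ := hM.cov z hz h
    rcases cov_mem hF (hM.val u hu).1 hc with e | e
    · exact Or.inl ⟨u, hu, Or.inl e⟩
    · exact Or.inr ⟨u, hu, e⟩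

/-- the neighbours of the interior of a macro cell -/
theorem ciNb (hF : Lay F Pr) {M : MU J} (hM : MVal F Pr M) {v z : Vx J} (hv : v ∈ CI F M)
    (hadj : F.Γ.Adj v z) : z ∈ F.Bot M.s M.s' ∪ M.T ∪ CI F M := by
  rcases hv with ⟨u, hu, h⟩ | h
  · obtain ⟨vu, t1, t2⟩ := hM.val u hu
    have c := capOf vu h
    have e := hM.lev hF hu
    by_cases hz : z ∈ F.L (F.f u.s) ∪ F.U (F.f u.s + 1)
    · rcases c.cl v h z hadj hz with a | a
      · exact Or.inr (Or.inl ⟨u, hu, a⟩)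
      · exact Or.inl (Or.inr ⟨u, hu, a⟩)
    · rcases c.sub h with a | a
      · have o := (c.old v a).1 h
        have := t1.2.1
        have := t2.2.2
        have k := hF.top _ _ hM.hs _ hM.hs' hM.ps hM.ps' v (e ▸ a) (by omega) (by omega) z hadj
        rcases hF.bd _ _ (hF.lu _ a) z hadj with b | b
        · exact Or.inr (Or.inr (k.1 (e ▸ ⟨b, hz⟩)))
        · exact Or.inl (Or.inl (k.2 (e ▸ b)))
      · exfalso
        rcases hF.bd _ _ a z hadj with b | b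
        · exact hz (Or.inr b)
        · rw [add_sub_cancel_right] at b
          exact hz (Or.inl b)
  · rcases h.2 v z Conn.rfl' hadj with a | a | a
    · exact Or.inr (Or.inr ⟨a, fun y z' hc ha => h.2 y z' ((Conn.step h.1 a hadj).trans hc) ha⟩)
    · exact Or.inl (Or.inl a)
    · rcases top_mem hF hM a with b | b
      · exact Or.inl (Or.inr b)
      · exact Or.inr (Or.inl b)

theorem ciTouch (hF : Lay F Pr) (hQ : Prof F Q) {M1 M2 : MU J} (h1 : M1 ∈ mac F Pr Q)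
    (h2 : M2 ∈ mac F Pr Q) (hl : F.f M1.s = F.f M2.s) {a b : Vx J} (ha : a ∈ CI F M1)
    (hb : b ∈ CI F M2) (hadj : F.Γ.Adj a b) : M1 = M2 := by
  rcases ciNb hF h1.1 ha hadj with (h | ⟨u, hu, h⟩) | h
  · exact (botNot h (hl ▸ ciU hF h2.1 hb)).elim
  · exact (ciT hF hQ h2 (h1.2 hu) (hl.symm.trans (h1.1.lev hF hu).symm) hb h).elim
  · exact cici hF hQ h1 h2 hl h hb

/-- the apex of an output unit lies in the interior of the cell -/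
theorem MO.apex (hF : Lay F Pr) {M : MU J} {O : Set (Un J)} (hO : MO F M O) {u : Un J}
    (hu : u ∈ O) (hx : u.x ≠ u.s) : u.x ∈ CI F M := by
  obtain ⟨v, -, -⟩ := hO.val u hu
  have e := hO.lev hF hu
  rcases v.alt with h | h
  · exact absurd h.1 hx
  · rcases hO.sub u hu (Or.inl (Or.inr (Or.inl rfl))) with a | a
    · exact (botNot a (e ▸ h.xu)).elim
    · exact a

/-- The units that the macro cells of `Q` leave on their bottoms. -/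
def nxt (F : FD J) (Pr : Set (Vx J)) (O : MU J → Set (Un J)) (Q : Set (Un J)) : Set (Un J) :=
  {u' | ∃ M ∈ mac F Pr Q, u' ∈ O M}

theorem prof_nxt (hF : Lay F Pr) (hQ : Prof F Q) (hi : ∀ a, ∀ u ∈ Q, u.act a ∈ Q)
    (hv : ∀ j, ∃ u ∈ Q, F.f u.s = j ∧ u.s ∈ Pr) {O : MU J → Set (Un J)}
    (hO : ∀ M ∈ mac F Pr Q, MO F M (O M)) : Prof F (nxt F Pr O Q) := by
  refine ⟨?_, ?_, ?_, ?_⟩
  · rintro u ⟨M, hM, hu⟩
    exact ((hO M hM).val u hu).1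
  · intro y hy
    obtain ⟨M, hM, o⟩ := mac_over hF hQ hi hv hy
    obtain ⟨u, hu, hc⟩ := (hO M hM).cov y o
    exact ⟨u, ⟨M, hM, hu⟩, hc⟩
  · rintro u1 ⟨M1, h1, a1⟩ u2 ⟨M2, h2, a2⟩ y c1 c2
    have e := over_uni hF hQ h1 h2 ((hO M1 h1).over hF a1 c1) ((hO M2 h2).over hF a2 c2)
    subst e
    exact (hO M1 h1).uni u1 a1 u2 a2 y c1 c2
  · rintro u1 ⟨M1, h1, a1⟩ u2 ⟨M2, h2, a2⟩ hl n1 n2 hadj
    have e1 := (hO M1 h1).lev hF a1
    have e2 := (hO M2 h2).lev hF a2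
    have e := ciTouch hF hQ h1 h2 (by omega) ((hO M1 h1).apex hF a1 n1)
      ((hO M2 h2).apex hF a2 n2) hadj
    subst e
    exact (hO M1 h1).nadj u1 a1 u2 a2 n1 n2 hadj

/-- The iterated profiles. -/
def QQ (F : FD J) (Pr : Set (Vx J)) (O : MU J → Set (Un J)) : ℕ → Set (Un J)
  | 0 => Tv F '' F.LA
  | t + 1 => nxt F Pr O (QQ F Pr O t)

/-- The fixed point for a given equivariant solver `O`.  `Ok0` describes the units that may occur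
at all, `Ok` those that the solver produces; `r` is a rank that bounds the dependence. -/
theorem msol_loc (hF : Lay F Pr) (Ok0 Ok : Un J → Prop) (O : MU J → Set (Un J))
    (hE : ∀ a M, O (M.act a) = Un.act a '' O M) (h01 : ∀ u, Ok u → Ok0 u)
    (htv : ∀ y ∈ F.LA, Ok0 (Tv F y))
    (hvis : ∀ j, ∃ t ∈ F.L j, t ∈ Pr ∧ ∀ u, Val F ∅ u → Ok0 u → F.f u.s = j → t ∉ u.pk)
    (hO : ∀ M, MVal F Pr M → (∀ u ∈ M.us, Ok0 u) → MO F M (O M) ∧ ∀ u ∈ O M, Ok u)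
    (r : Vx J → ℕ) (N : ℕ) (hN : ∀ y ∈ F.LA, r y ≤ N)
    (hloc : ∀ y ∈ F.LA, ∀ Q1 Q2, Prof F Q1 → Prof F Q2 → (∀ u ∈ Q1, Ok u) → (∀ u ∈ Q2, Ok u) →
      (∀ z, r z < r y → ∀ u, F.Cov u z → (u ∈ Q1 ↔ u ∈ Q2)) →
      ∀ M1 ∈ mac F Pr Q1, ∀ M2 ∈ mac F Pr Q2, ∀ u1 ∈ O M1, ∀ u2 ∈ O M2,
        F.Cov u1 y → F.Cov u2 y → u1 = u2) :
    ∃ Q, MSol F Pr Q O ∧ ∀ u ∈ Q, Ok u := by
  have vis : ∀ Q, Prof F Q → (∀ u ∈ Q, Ok0 u) → ∀ j, ∃ u ∈ Q, F.f u.s = j ∧ u.s ∈ Pr := by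
    intro Q hQ h0 j
    obtain ⟨t, ht, pt, hn⟩ := hvis j
    obtain ⟨u, hu, hc⟩ := hQ.cov t (hF.la ht)
    have e : F.f u.s = j := (cov_lev hF hc).symm.trans (hF.lf _ _ ht)
    rcases cov_mem hF (hQ.val u hu) hc with a | a
    · exact ⟨u, hu, e, a ▸ pt⟩
    · exact absurd a (hn u (hQ.val u hu) (h0 u hu) e)
  have inv : ∀ t, Prof F (QQ F Pr O t) ∧ (∀ a, ∀ u ∈ QQ F Pr O t, u.act a ∈ QQ F Pr O t) ∧
      (∀ u ∈ QQ F Pr O t, Ok0 u) ∧ ∀ u ∈ QQ F Pr O (t + 1), Ok u := by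
    have step : ∀ t, (∀ u ∈ QQ F Pr O t, Ok0 u) → ∀ u ∈ QQ F Pr O (t + 1), Ok u := by
      rintro t h0 u ⟨M, hM, hu⟩
      exact (hO M hM.1 fun v hv => h0 v (hM.2 hv)).2 u hu
    intro t
    induction t with
    | zero =>
      have h0 : ∀ u ∈ QQ F Pr O 0, Ok0 u := by
        rintro _ ⟨y, hy, rfl⟩
        exact htv y hy
      refine ⟨hF.prof_tv, ?_, h0, step 0 h0⟩
      rintro a _ ⟨y, hy, rfl⟩
      exact ⟨tr a y, (hF.la_tr a y).2 hy, (hF.tv_tr a hy).symm⟩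
    | succ t ih =>
      obtain ⟨p, i, o0, o1⟩ := ih
      refine ⟨prof_nxt hF p i (vis _ p o0) fun M hM => (hO M hM.1 fun v hv => o0 v (hM.2 hv)).1,
        ?_, fun u hu => h01 u (o1 u hu), step _ fun u hu => h01 u (o1 u hu)⟩
      rintro a u ⟨M, hM, hu⟩
      exact ⟨M.act a, hF.mac_tr i a hM, by rw [hE]; exact ⟨u, hu, rfl⟩⟩
  have stab : ∀ k, ∀ y ∈ F.LA, r y ≤ k → ∀ n, k + 2 ≤ n → ∀ u, F.Cov u y →
      (u ∈ QQ F Pr O n ↔ u ∈ QQ F Pr O (n + 1)) := by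
    intro k
    induction k using Nat.strong_induction_on with
    | _ k ih =>
      intro y hy hk n hn u hc
      obtain ⟨n, rfl⟩ : ∃ m, n = m + 2 := ⟨n - 2, by omega⟩
      have key : ∀ u1 ∈ QQ F Pr O (n + 2), ∀ u2 ∈ QQ F Pr O (n + 2 + 1), F.Cov u1 y → F.Cov u2 y →
          u1 = u2 := by
        rintro u1 ⟨M1, h1, a1⟩ u2 ⟨M2, h2, a2⟩ c1 c2
        refine hloc y hy _ _ (inv (n + 1)).1 (inv (n + 2)).1 (inv n).2.2.2 (inv (n + 1)).2.2.2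
          ?_ M1 h1 M2 h2 u1 a1 u2 a2 c1 c2
        intro z hz v hv
        exact ih (r z) (by omega) z (hF.la hv.1) le_rfl (n + 1) (by omega) v hv
      constructor
      · intro h
        obtain ⟨u2, h2, c2⟩ := (inv (n + 2 + 1)).1.cov y hy
        rw [key u h u2 h2 hc c2]
        exact h2
      · intro h
        obtain ⟨u1, h1, c1⟩ := (inv (n + 2)).1.cov y hy
        rw [← key u1 h1 u h c1 hc]
        exact h1
  obtain ⟨p, i, o0, -⟩ := inv (N + 2)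
  refine ⟨QQ F Pr O (N + 2), ⟨p, i, vis _ p o0,
    fun M hM => (hO M hM.1 fun v hv => o0 v (hM.2 hv)).1, ?_, hE⟩, (inv (N + 1)).2.2.2⟩
  intro u
  show u ∈ QQ F Pr O (N + 2) ↔ u ∈ QQ F Pr O (N + 2 + 1)
  constructor
  · intro h
    have v := p.val u h
    exact (stab N u.s v.hs (hN _ v.hs) _ le_rfl u (cov_self v)).1 h
  · intro h
    have v := (inv (N + 2 + 1)).1.val u h
    exact (stab N u.s v.hs (hN _ v.hs) _ le_rfl u (cov_self v)).2 h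

/-- Equivariant choice for a free action of the lattice. -/
theorem eqv_choice {ι τ : Type} [Nonempty τ] (act : ℤ × ℤ → ι → ι) (act' : ℤ × ℤ → τ → τ)
    (nm : ι → ℤ × ℤ) (I : ι → Prop) (R : ι → τ → Prop) (a0 : ∀ i, act 0 i = i)
    (aa : ∀ a b i, act a (act b i) = act (b + a) i)
    (aa' : ∀ a b t, act' a (act' b t) = act' (b + a) t)
    (hn : ∀ a i, nm (act a i) = nm i + a) (hI : ∀ a i, I i → I (act a i))
    (hR : ∀ a i t, I i → R i t → R (act a i) (act' a t)) (hex : ∀ i, I i → ∃ t, R i t) :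
    ∃ O : ι → τ, (∀ i, I i → R i (O i)) ∧ ∀ a i, O (act a i) = act' a (O i) := by
  have hex' : ∀ i, ∃ t, I i → R i t := by
    intro i
    by_cases h : I i
    · obtain ⟨t, ht⟩ := hex i h
      exact ⟨t, fun _ => ht⟩
    · exact ⟨Classical.arbitrary τ, fun h' => absurd h' h⟩
  choose O0 hO0 using hex'
  refine ⟨fun i => act' (nm i) (O0 (act (-nm i) i)), fun i hi => ?_, fun a i => ?_⟩
  · have := hR (nm i) _ _ (hI (-nm i) i hi) (hO0 _ (hI _ i hi))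
    rwa [aa, neg_add_cancel, a0] at this
  · have e : a + -(nm i + a) = -nm i := by abel
    simp only [hn, aa, aa', e]

/-- The fixed point from a solver that exists for every macro cell, with a barrier given by a
rank: an edge is rigid, or every unit of every macro cell over it covers an edge of lower rank. -/
theorem msol (hF : Lay F Pr) (Ok0 Ok : Un J → Prop) (P : MU J → Set (Un J) → Prop)
    (i0 : ∀ a u, Val F ∅ u → Ok0 u → Ok0 (u.act a)) (i1 : ∀ a u, Val F ∅ u → Ok u → Ok (u.act a))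
    (iP : ∀ a M O, MVal F Pr M → MO F M O → P M O → P (M.act a) (Un.act a '' O))
    (h01 : ∀ u, Ok u → Ok0 u) (htv : ∀ y ∈ F.LA, Ok0 (Tv F y))
    (hvis : ∀ j, ∃ t ∈ F.L j, t ∈ Pr ∧ ∀ u, Val F ∅ u → Ok0 u → F.f u.s = j → t ∉ u.pk)
    (hsol : ∀ M, MVal F Pr M → (∀ u ∈ M.us, Ok0 u) →
      ∃ O, MO F M O ∧ (∀ u ∈ O, Ok u) ∧ P M O)
    (r : Vx J → ℕ) (N : ℕ) (hN : ∀ y ∈ F.LA, r y ≤ N)
    (hr : ∀ y ∈ F.LA,
      (∀ u1 u2, Val F ∅ u1 → Val F ∅ u2 → Ok u1 → Ok u2 → F.Cov u1 y → F.Cov u2 y → u1 = u2) ∨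
      ∀ M, MVal F Pr M → (∀ u ∈ M.us, Ok u) → Over F M y →
        ∀ u ∈ M.us, ∃ z, F.Cov u z ∧ r z < r y) :
    ∃ Q O, MSol F Pr Q O ∧ (∀ u ∈ Q, Ok u) ∧ ∀ M ∈ mac F Pr Q, P M (O M) := by
  obtain ⟨O, hO, hE⟩ := eqv_choice (ι := MU J) (τ := Set (Un J)) MU.act (fun a S => Un.act a '' S)
    (fun M => M.s.2) (fun M => MVal F Pr M ∧ ∀ u ∈ M.us, Ok0 u)
    (fun M O => MO F M O ∧ (∀ u ∈ O, Ok u) ∧ P M O) MU.act_zero MU.act_act
    (fun a b S => by simp only [Set.image_image, Un.act_act]) (fun a M => rfl)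
    (fun a M h => ⟨hF.mval_tr a h.1, by
      rintro _ ⟨u, hu, rfl⟩
      exact i0 a u (h.1.val u hu).1 (h.2 u hu)⟩)
    (fun a M O h h' => ⟨hF.mo_tr a h.1 h'.1, by
      rintro _ ⟨u, hu, rfl⟩
      exact i1 a u (h'.1.val u hu).1 (h'.2.1 u hu), iP a M O h.1 h'.1 h'.2.2⟩)
    (fun M h => hsol M h.1 h.2)
  obtain ⟨Q, hQ, hok⟩ := msol_loc hF Ok0 Ok O hE h01 htv hvis
    (fun M h1 h2 => ⟨(hO M ⟨h1, h2⟩).1, (hO M ⟨h1, h2⟩).2.1⟩) r N hN (by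
      intro y hy Q1 Q2 p1 p2 o1 o2 ag M1 h1 M2 h2 u1 a1 u2 a2 c1 c2
      have k1 := hO M1 ⟨h1.1, fun u hu => h01 u (o1 u (h1.2 hu))⟩
      have k2 := hO M2 ⟨h2.1, fun u hu => h01 u (o2 u (h2.2 hu))⟩
      rcases hr y hy with h | h
      · exact h u1 u2 (k1.1.val u1 a1).1 (k2.1.val u2 a2).1 (k1.2.1 u1 a1) (k2.2.1 u2 a2) c1 c2
      · have ov1 := k1.1.over hF a1 c1
        have m1 : M1 ∈ mac F Pr Q2 := ⟨h1.1, fun u hu => by
          obtain ⟨z, cz, hz⟩ := h M1 h1.1 (fun u hu => o1 u (h1.2 hu)) ov1 u hu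
          exact (ag z hz u cz).1 (h1.2 hu)⟩
        have e := over_uni hF p2 m1 h2 ov1 (k2.1.over hF a2 c2)
        subst e
        exact k1.1.uni u1 a1 u2 a2 y c1 c2)
  exact ⟨Q, O, hQ, hok, fun M hM =>
    (hO M ⟨hM.1, fun u hu => h01 u (hok u (hM.2 hu))⟩).2.2⟩

end Pool.Agent.P.MP_08fd93_co.FM
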