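import Pool.Agent.P.MP_08fd93_co.FM.M2
import Pool.Agent.P.MP_08fd93_co.OV.PkPG

/-! Dynamic layer: the partition into skeleton lines and middle parts, and the gluing. -/

set_option autoImplicit false

namespace Pool.Agent.P.MP_08fd93_co.FM

open OV PkPrtP

variable {J : Type} {F : FD J} {Pr : Set (Vx J)} {Q : Set (Un J)} {O : MU J → Set (Un J)}

theorem lcov (hF : Lay F Pr) (hQ : Prof F Q) {j : ℤ} {z : Vx J} (hz : z ∈ F.L j) :
    ∃ u ∈ Q, F.f u.s = j ∧ F.Cov u z ∧ (z ∈ u.T ∨ z ∈ u.pk) := by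
  obtain ⟨u, hu, hc⟩ := hQ.cov z (hF.la hz)
  refine ⟨u, hu, (cov_lev hF hc).symm.trans (hF.lf _ _ hz), hc, ?_⟩
  exact (cov_mem hF (hQ.val u hu) hc).imp_left fun e => Or.inl e

theorem upNb (hF : Lay F Pr) (hQ : Prof F Q) {j : ℤ} {v z : Vx J} (hv : v ∈ Up F Q j)
    (hadj : F.Γ.Adj v z) : z ∈ Up F Q j ∨ z ∈ F.SK Q j := by
  have np : ∀ u ∈ Q, F.f u.s = j → z ∉ u.pk := by
    intro u hu hj hz
    have c := capOf (hQ.val u hu) hz
    rcases c.cl z hz v hadj.symm (Or.inr (hj ▸ hv.1)) with h | h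
    · exact (hv.2 u hu hj).2 h
    · exact (hv.2 u hu hj).1 h
  by_cases hs : z ∈ F.SK Q j
  · exact Or.inr hs
  · left
    refine ⟨?_, fun u hu hj => ⟨fun h => hs ⟨u, hu, hj, h⟩, np u hu hj⟩⟩
    rcases hF.bd _ _ hv.1 z hadj with h | h
    · exact h
    · rw [add_sub_cancel_right] at h
      obtain ⟨u, hu, hj, -, h | h⟩ := lcov hF hQ h
      · exact absurd ⟨u, hu, hj, h⟩ hs
      · exact absurd h (np u hu hj)

theorem parent (hF : Lay F Pr) (hQ : MSol F Pr Q O) {u' : Un J} (hu' : u' ∈ Q) {v : Vx J}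
    (hv : v ∈ u'.T ∨ v ∈ u'.pk) (hU : v ∈ F.U (F.f u'.s + 1)) :
    ∃ M ∈ mac F Pr Q, u' ∈ O M ∧ F.f u'.s + 1 = F.f M.s ∧ v ∈ CI F M := by
  obtain ⟨M, hM, ho⟩ := (hQ.fix u').1 hu'
  have hl := (hQ.mo M hM).lev hF ho
  refine ⟨M, hM, ho, hl, ?_⟩
  rcases (hQ.mo M hM).sub u' ho hv with h | h
  · exact (botNot h (hl ▸ hU)).elim
  · exact h

theorem skUp (hF : Lay F Pr) (hQ : MSol F Pr Q O) {j : ℤ} {v : Vx J} (hv : v ∈ F.SK Q (j + 1)) :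
    v ∈ Up F Q j := by
  obtain ⟨u, hu, hj, hT⟩ := hv
  have hU : v ∈ F.U (j + 1) := hj ▸ hF.luU (tLU (hQ.prof.val u hu) hT)
  have key : ∀ u' ∈ Q, F.f u'.s = j → ¬ (v ∈ u'.T ∨ v ∈ u'.pk) := by
    intro u' hu' hj' h
    obtain ⟨M, h0, -, hl, hc⟩ := parent hF hQ hu' h (hj' ▸ hU)
    exact ciT hF hQ.prof h0 hu (by omega) hc hT
  exact ⟨hU, fun u' hu' hj' => ⟨fun h => key u' hu' hj' (Or.inl h),
    fun h => key u' hu' hj' (Or.inr h)⟩⟩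

theorem ciUp (hF : Lay F Pr) {M : MU J} (hM : M ∈ mac F Pr Q) {v : Vx J} (hc : v ∈ CI F M)
    (hv : v ∈ Up F Q (F.f M.s)) : False := by
  rcases hc with ⟨u, hu, h⟩ | h
  · exact (hv.2 u (hM.2 hu) (hM.1.lev hF hu)).2 h
  · exact stNot h.1 (Or.inr hv.1)

theorem upUp (hF : Lay F Pr) (hQ : MSol F Pr Q O) {j : ℤ} {v : Vx J} (hv : v ∈ Up F Q (j + 1)) :
    v ∈ Up F Q j := by
  have hU : v ∈ F.U (j + 1) := hF.luU (Or.inr hv.1)
  have key : ∀ u' ∈ Q, F.f u'.s = j → ¬ (v ∈ u'.T ∨ v ∈ u'.pk) := by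
    intro u' hu' hj' h
    obtain ⟨M, h0, -, hl, hc⟩ := parent hF hQ hu' h (hj' ▸ hU)
    have e : F.f M.s = j + 1 := by omega
    exact ciUp hF h0 hc (e ▸ hv)
  exact ⟨hU, fun u' hu' hj' => ⟨fun h => key u' hu' hj' (Or.inl h),
    fun h => key u' hu' hj' (Or.inr h)⟩⟩

theorem upMono (hF : Lay F Pr) (hQ : MSol F Pr Q O) {j j' : ℤ} (h : j ≤ j') {v : Vx J}
    (hv : v ∈ Up F Q j') : v ∈ Up F Q j := by
  induction j', h using Int.leInduction with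
  | base => exact hv
  | succ n _ ih => exact ih (upUp hF hQ hv)

theorem skUp' (hF : Lay F Pr) (hQ : MSol F Pr Q O) {j j' : ℤ} (h : j < j') {v : Vx J}
    (hv : v ∈ F.SK Q j') : v ∈ Up F Q j := by
  have e : j' = (j' - 1) + 1 := by omega
  rw [e] at hv
  exact upMono hF hQ (by omega) (skUp hF hQ hv)

theorem mmUp (hF : Lay F Pr) (hQ : MSol F Pr Q O) {M : MU J} (hM : M ∈ mac F Pr Q) {v : Vx J}
    (hv : v ∈ MM F M (O M)) {j : ℤ} (hj : j < F.f M.s) : v ∈ Up F Q j := by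
  refine upMono hF hQ (show j ≤ F.f M.s - 1 by omega) ?_
  have hU : v ∈ F.U (F.f M.s - 1 + 1) := by
    rw [sub_add_cancel]
    exact ciU hF hM.1 hv.1
  have key : ∀ u' ∈ Q, F.f u'.s = F.f M.s - 1 → ¬ (v ∈ u'.T ∨ v ∈ u'.pk) := by
    intro u' hu' hj' h
    obtain ⟨M0, h0, ho, hl, hc⟩ := parent hF hQ hu' h (hj' ▸ hU)
    have e := cici hF hQ.prof h0 hM (by omega) hc hv.1
    subst e
    rcases h with h | h
    · exact (hv.2 u' ho).1 h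
    · exact (hv.2 u' ho).2 h
  exact ⟨hU, fun u' hu' hj' => ⟨fun h => key u' hu' hj' (Or.inl h),
    fun h => key u' hu' hj' (Or.inr h)⟩⟩

theorem upStep (hF : Lay F Pr) (hQ : MSol F Pr Q O) {j : ℤ} {v : Vx J}
    (hv : v ∈ Up F Q j) (hn : v ∉ Up F Q (j + 1)) :
    v ∈ F.SK Q (j + 1) ∨ ∃ M ∈ mac F Pr Q, v ∈ MM F M (O M) := by
  by_cases hs : v ∈ F.SK Q (j + 1)
  · exact Or.inl hs
  right
  have pk : ∀ u ∈ Q, F.f u.s = j + 1 → v ∈ u.pk →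
      ∃ M ∈ mac F Pr Q, F.f M.s = j + 1 ∧ v ∈ CI F M := by
    intro u hu hj h
    obtain ⟨M, hM, hm⟩ := mac_unit hF hQ.prof hQ.inv hQ.vis hu
    exact ⟨M, hM, (hM.1.lev hF hm).symm.trans hj, Or.inl ⟨u, hm, h⟩⟩
  have key : ∃ M ∈ mac F Pr Q, F.f M.s = j + 1 ∧ v ∈ CI F M := by
    by_cases h2 : v ∈ F.U (j + 1 + 1)
    · by_contra hc
      exact hn ⟨h2, fun u hu hj => ⟨fun h => hs ⟨u, hu, hj, h⟩, fun h => hc (pk u hu hj h)⟩⟩
    · by_cases h1 : v ∈ F.L (j + 1)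
      · obtain ⟨u, hu, hj, -, h | h⟩ := lcov hF hQ.prof h1
        · exact absurd ⟨u, hu, hj, h⟩ hs
        · exact pk u hu hj h
      · have hst : v ∈ F.St (j + 1) := ⟨hv.1, fun h => h.elim h1 h2⟩
        obtain ⟨s, hs1, s', hs2, p1, p2, lt, mx, hv'⟩ := hF.ex _ v hst
        obtain ⟨M, hM, e, l1, l2⟩ := mac_top hF hQ.prof hQ.inv hQ.vis (j := j + 1) (F.ρ s)
        have := mx M.s' (e ▸ hM.1.hs') hM.1.ps'
        exact ⟨M, hM, e, Or.inr (hF.si_sub (e ▸ hM.1.hs) (e ▸ hM.1.hs') hs1 hs2 hM.1.ps hM.1.ps'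
          p1 p2 l1 (by omega) hv')⟩
  obtain ⟨M, hM, hj, hc⟩ := key
  refine ⟨M, hM, hc, fun u' ho => hv.2 u' ((hQ.fix u').2 ⟨M, hM, ho⟩) ?_⟩
  have := (hQ.mo M hM).lev hF ho
  omega

theorem height [Fintype J] (hF : Lay F Pr) (hQ : Prof F Q) (hi : ∀ a, ∀ u ∈ Q, u.act a ∈ Q) :
    ∃ K : ℤ, ∀ u ∈ Q, ∀ v, (v ∈ u.T ∨ v ∈ u.pk) → F.f v ≤ F.f u.s + K := by
  have one : ∀ i : J, ∃ K : ℤ, ∀ u ∈ Q, u.s = (i, 0) → ∀ v, (v ∈ u.T ∨ v ∈ u.pk) →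
      F.f v ≤ F.f u.s + K := by
    intro i
    by_cases h : ∃ u ∈ Q, u.s = (i, 0)
    · obtain ⟨u0, h0, e0⟩ := h
      have v0 := hQ.val u0 h0
      have hfin : (u0.T ∪ u0.pk).Finite := by
        refine Set.Finite.union (((Set.finite_singleton _).insert _).insert _) ?_
        rcases v0.alt with h | h
        · rw [h.2.2]
          exact Set.finite_empty
        · exact h.fin
      obtain ⟨B, hB⟩ := (hfin.image F.f).bddAbove
      refine ⟨B - F.f u0.s, fun u hu e v hv => ?_⟩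
      have v1 := hQ.val u hu
      have es : u.s = u0.s := e.trans e0.symm
      have : u = u0 := hQ.uni _ hu _ h0 u.s ⟨v1.hs, le_rfl, vlt v1⟩
        (by rw [es]; exact ⟨v0.hs, le_rfl, vlt v0⟩)
      subst this
      have := hB ⟨v, hv, rfl⟩
      omega
    · exact ⟨0, fun u hu e => absurd ⟨u, hu, e⟩ h⟩
  choose K hK using one
  obtain ⟨B, hB⟩ := (Set.finite_range K).bddAbove
  refine ⟨B, fun u hu v hv => ?_⟩
  have h1 := hK u.s.1 (u.act (-u.s.2)) (hi _ u hu) (by simp [Un.act, tr]) (tr (-u.s.2) v)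
    (hv.imp (mem_T _ u v).2 (mem_pk _ u v).2)
  have h2 := hB ⟨u.s.1, rfl⟩
  have h3 : F.f (u.act (-u.s.2)).s = F.f u.s + F.η (-u.s.2) := hF.per _ _
  rw [hF.per, h3] at h1
  omega

/-- The skeleton. -/
def SKA (F : FD J) (Q : Set (Un J)) : Set (Vx J) := {v | ∃ j, v ∈ F.SK Q j}

theorem cover [Fintype J] (hF : Lay F Pr) (hQ : MSol F Pr Q O) (v : Vx J) :
    v ∈ SKA F Q ∨ ∃ M ∈ mac F Pr Q, v ∈ MM F M (O M) := by
  obtain ⟨K, hK⟩ := height hF hQ.prof hQ.inv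
  obtain ⟨M, hM0, hM⟩ := hF.big
  have h0 : v ∈ Up F Q (F.f v - 1 - M - |K|) := by
    have a1 := le_abs_self K
    have a2 := abs_nonneg K
    refine ⟨hM _ v (by omega), fun u hu hj => ⟨fun h => ?_, fun h => ?_⟩⟩
    · have := hK u hu v (Or.inl h)
      omega
    · have := hK u hu v (Or.inr h)
      omega
  obtain ⟨j, hj, hmax⟩ := Int.exists_greatest_of_bdd (P := fun j => v ∈ Up F Q j)
    ⟨F.f v, fun z hz => by
      have := hF.ge _ _ hz.1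
      omega⟩ ⟨_, h0⟩
  rcases upStep hF hQ hj (fun h => by
    have := hmax _ h
    omega) with h | h
  · exact Or.inl ⟨_, h⟩
  · exact Or.inr h

/-- the level of a skeleton vertex is unique -/
theorem sk_lev (hF : Lay F Pr) (hQ : MSol F Pr Q O) {j j' : ℤ} {v : Vx J} (h : v ∈ F.SK Q j)
    (h' : v ∈ F.SK Q j') : j = j' := by
  rcases lt_trichotomy j j' with a | a | a
  · exact (skNot h (skUp' hF hQ a h')).elim
  · exact a
  · exact (skNot h' (skUp' hF hQ a h)).elim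

theorem mmSk (hF : Lay F Pr) (hQ : MSol F Pr Q O) {M : MU J} (hM : M ∈ mac F Pr Q) {v : Vx J}
    (hv : v ∈ MM F M (O M)) (h : v ∈ SKA F Q) : False := by
  obtain ⟨j, h⟩ := h
  rcases lt_trichotomy j (F.f M.s) with a | a | a
  · exact skNot h (mmUp hF hQ hM hv a)
  · obtain ⟨u2, h2, hj, hT⟩ := h
    exact ciT hF hQ.prof hM h2 (by omega) hv.1 hT
  · exact ciUp hF hM hv.1 (skUp' hF hQ a h)

theorem mmLt (hF : Lay F Pr) (hQ : MSol F Pr Q O) {M1 M2 : MU J} (h1 : M1 ∈ mac F Pr Q)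
    (h2 : M2 ∈ mac F Pr Q) (hl : F.f M1.s < F.f M2.s) {a b : Vx J} (ha : a ∈ MM F M1 (O M1))
    (hb : b ∈ MM F M2 (O M2)) (h : a = b ∨ F.Γ.Adj b a) : False := by
  have hU := mmUp hF hQ h2 hb hl
  rcases h with h | h
  · exact ciUp hF h1 ha.1 (h ▸ hU)
  · rcases upNb hF hQ.prof hU h with h | h
    · exact ciUp hF h1 ha.1 h
    · exact mmSk hF hQ h1 ha ⟨_, h⟩

theorem mm_mm (hF : Lay F Pr) (hQ : MSol F Pr Q O) {M1 M2 : MU J} (h1 : M1 ∈ mac F Pr Q)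
    (h2 : M2 ∈ mac F Pr Q) (hne : M1 ≠ M2) : Disjoint (MM F M1 (O M1)) (MM F M2 (O M2)) ∧
      ¬ Touch F.Γ (MM F M1 (O M1)) (MM F M2 (O M2)) := by
  rcases lt_trichotomy (F.f M1.s) (F.f M2.s) with a | a | a
  · exact ⟨Set.disjoint_left.2 fun v hv h => mmLt hF hQ h1 h2 a hv h (Or.inl rfl),
      fun ⟨x, hx, y, hy, h⟩ => mmLt hF hQ h1 h2 a hx hy (Or.inr h.symm)⟩
  · exact ⟨Set.disjoint_left.2 fun v hv h => hne (cici hF hQ.prof h1 h2 a hv.1 h.1),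
      fun ⟨x, hx, y, hy, h⟩ => hne (ciTouch hF hQ.prof h1 h2 a hx.1 hy.1 h)⟩
  · exact ⟨Set.disjoint_left.2 fun v hv h => mmLt hF hQ h2 h1 a h hv (Or.inl rfl),
      fun ⟨x, hx, y, hy, h⟩ => mmLt hF hQ h2 h1 a hy hx (Or.inr h)⟩

/-- adjacent skeleton vertices lie on neighbouring levels -/
theorem sk_near (hF : Lay F Pr) (hQ : MSol F Pr Q O) {j j' : ℤ} {v v' : Vx J} (h : v ∈ F.SK Q j)
    (h' : v' ∈ F.SK Q j') (hadj : F.Γ.Adj v v') : j' ≤ j + 1 := by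
  by_contra hc
  have hU := skUp' hF hQ (show j + 1 < j' by omega) h'
  rcases upNb hF hQ.prof hU hadj.symm with a | a
  · exact skNot h (upUp hF hQ a)
  · have := sk_lev hF hQ h a
    omega

theorem sk_tr (hF : Lay F Pr) (hi : ∀ a, ∀ u ∈ Q, u.act a ∈ Q) (a : ℤ × ℤ) {j : ℤ} {v : Vx J}
    (h : v ∈ F.SK Q j) : tr a v ∈ F.SK Q (j + F.η a) := by
  obtain ⟨u, hu, hj, hT⟩ := h
  exact ⟨u.act a, hi a u hu, hj ▸ hF.per a u.s, (mem_T a u v).2 hT⟩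

/-- Gluing: a periodic colouring of the skeleton, at most one allowance per vertex and an
extension into every macro cell give a colouring with defect one. -/
theorem glue [Fintype J] (hF : Lay F Pr) (hQ : MSol F Pr Q O) (c : J → Col)
    (Al : MU J → Set (Vx J))
    (hA : ∀ a, ∀ M ∈ mac F Pr Q, ∀ x, x ∈ Al M → tr a x ∈ Al (M.act a))
    (hrec : ∀ M ∈ mac F Pr Q, ∃ c', Rec F.Γ (MM F M (O M)) (Al M) (fun x => c x.1) c')
    (h1 : ∀ v ∈ SKA F Q, OneIn F.Γ (fun x => c x.1) (SKA F Q) v)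
    (h2 : ∀ v ∈ SKA F Q, ∀ y ∈ SKA F Q, F.Γ.Adj v y → c y.1 = c v.1 →
      ∀ M ∈ mac F Pr Q, v ∉ Al M)
    (h3 : ∀ M1 ∈ mac F Pr Q, ∀ M2 ∈ mac F Pr Q, ∀ v, v ∈ Al M1 → v ∈ Al M2 → M1 = M2) :
    ∃ c', Col1 F.Γ ∅ c' := by
  obtain ⟨c', e1, e2, e3⟩ := pk_PG J F.Γ (MU J) MU.act (fun M => M.s.2) (mac F Pr Q)
    (fun M => MM F M (O M)) Al c hF.fine.inv MU.act_zero MU.act_act (fun a M => rfl)
    (fun a M hM => hF.mac_tr hQ.inv a hM)
    (fun a M hM x => by rw [hQ.eqv]; exact hF.mm_tr a hM.1 _ x) hA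
    (fun M1 h1 M2 h2 hne => mm_mm hF hQ h1 h2 hne) hrec
  refine ⟨c', fun x y z _ _ _ hy hz cy cz => ?_⟩
  rcases cover hF hQ x with hx | ⟨M, hM, hx⟩
  · have nx : ∀ M ∈ mac F Pr Q, x ∉ MM F M (O M) := fun M hM h => mmSk hF hQ hM h hx
    have sk : ∀ y ∈ SKA F Q, c' y.1 = c y.1 := fun y hy =>
      e1 y fun M hM h => mmSk hF hQ hM h hy
    rcases cover hF hQ y with sy | ⟨My, hMy, my⟩ <;> rcases cover hF hQ z with sz | ⟨Mz, hMz, mz⟩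
    · exact h1 x hx y sy z sz hy hz ((sk y sy).symm.trans (cy.trans (sk x hx)))
        ((sk z sz).symm.trans (cz.trans (sk x hx)))
    · exact absurd ((e3 x nx Mz hMz).1 z mz hz cz)
        (h2 x hx y sy hy (by rw [← sk y sy, ← sk x hx]; exact cy) Mz hMz)
    · exact absurd ((e3 x nx My hMy).1 y my hy cy)
        (h2 x hx z sz hz (by rw [← sk z sz, ← sk x hx]; exact cz) My hMy)
    · have e := h3 My hMy Mz hMz x ((e3 x nx My hMy).1 y my hy cy) ((e3 x nx Mz hMz).1 z mz hz cz)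
      subst e
      exact (e3 x nx My hMy).2 y my z mz hy hz cy cz
  · exact e2 M hM x hx y z hy hz cy cz

end Pool.Agent.P.MP_08fd93_co.FM
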