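import Pool.Agent.P.MP_08fd93_co.FM.M3
import Pool.Agent.P.MP_08fd93_co.OV.PkIso

/-! Dynamic layer: the master theorem for a static plan. -/

set_option autoImplicit false

namespace Pool.Agent.P.MP_08fd93_co.FM

open OV PkPrtP

variable {J : Type} {F : FD J} {Pr : Set (Vx J)} {Q : Set (Un J)} {O : MU J → Set (Un J)}

theorem cap_of {u : Un J} (hv : Val F ∅ u) (h : u.x ≠ u.s) : Cap F ∅ u :=
  hv.alt.resolve_left fun e => h e.1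

theorem cap_ne {u : Un J} (hv : Val F ∅ u) (hc : Cap F ∅ u) : u.x ≠ u.s :=
  fun e => lU hv.hs (e ▸ hc.xu)

theorem triv_of {u : Un J} (hv : Val F ∅ u) (h : u.x = u.s) : F.ρ u.s' = F.ρ u.s + 1 :=
  (hv.alt.resolve_right fun c => cap_ne hv c h).2.1

theorem sk_s {u : Un J} (hu : u ∈ Q) : u.s ∈ F.SK Q (F.f u.s) := ⟨u, hu, rfl, Or.inl rfl⟩

theorem sk_x {u : Un J} (hu : u ∈ Q) : u.x ∈ F.SK Q (F.f u.s) :=
  ⟨u, hu, rfl, Or.inr (Or.inl rfl)⟩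

theorem sk_s' {u : Un J} (hu : u ∈ Q) : u.s' ∈ F.SK Q (F.f u.s) :=
  ⟨u, hu, rfl, Or.inr (Or.inr rfl)⟩

theorem Prof.own_s (hQ : Prof F Q) {u1 u2 : Un J} (h1 : u1 ∈ Q) (h2 : u2 ∈ Q) (h : u1.s = u2.s) :
    u1 = u2 :=
  hQ.uni u1 h1 u2 h2 u1.s (cov_self (hQ.val u1 h1)) (h ▸ cov_self (hQ.val u2 h2))

theorem Prof.own_s' (hF : Lay F Pr) (hQ : Prof F Q) {u1 u2 : Un J} (h1 : u1 ∈ Q) (h2 : u2 ∈ Q)
    (h : u1.s' = u2.s') : u1 = u2 := by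
  have v1 := hQ.val u1 h1
  have v2 := hQ.val u2 h2
  have hl : F.f u1.s = F.f u2.s := by
    rw [← hF.lf _ _ v1.hs', ← hF.lf _ _ v2.hs', h]
  have a := vlt v1
  have b := vlt v2
  by_contra hne
  rw [h] at a
  rcases hQ.ap h1 h2 hne hl with e | e
  · rw [h] at e
    omega
  · omega

/-- two caps on one level with the same apex are equal -/
theorem Prof.own_x (hQ : Prof F Q) {u1 u2 : Un J} (h1 : u1 ∈ Q) (h2 : u2 ∈ Q)
    (hl : F.f u1.s = F.f u2.s) (n1 : u1.x ≠ u1.s) (n2 : u2.x ≠ u2.s) (e : u1.x = u2.x) :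
    u1 = u2 := by
  have v1 := hQ.val u1 h1
  have v2 := hQ.val u2 h2
  have c1 := cap_of v1 n1
  have c2 := cap_of v2 n2
  have t1 := c2.xn u1.s (hl ▸ v1.hs) (e ▸ c1.sx.symm)
  have t2 := c2.xn u1.s' (hl ▸ v1.hs') (e ▸ c1.xs)
  have := vlt v1
  exact hQ.uni u1 h1 u2 h2 u1.s (cov_self v1) ⟨t1.1, t1.2.1, lt_of_lt_of_le this t2.2.2⟩

/-- a skeleton vertex is a left end or an apex -/
theorem sk_cases (hF : Lay F Pr) (hQ : Prof F Q) {j : ℤ} {v : Vx J} (h : v ∈ F.SK Q j) :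
    ∃ u ∈ Q, F.f u.s = j ∧ (v = u.s ∨ (u.x ≠ u.s ∧ v = u.x)) := by
  obtain ⟨u, hu, hj, hT⟩ := h
  have vu := hQ.val u hu
  rcases tsub vu hT with e | e | ⟨e, c⟩
  · exact ⟨u, hu, hj, Or.inl e⟩
  · obtain ⟨u', hu', e'⟩ := hQ.next hF hu
    exact ⟨u', hu', by rw [e', hF.lf _ _ vu.hs', hj], Or.inl (e.trans e'.symm)⟩
  · exact ⟨u, hu, hj, Or.inr ⟨cap_ne vu c, e⟩⟩

/-- An edge of the top path of a unit, from left to right. -/
def Ed (u : Un J) (v y : Vx J) : Prop :=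
  (u.x = u.s ∧ v = u.s ∧ y = u.s') ∨ (u.x ≠ u.s ∧ ((v = u.s ∧ y = u.x) ∨ (v = u.x ∧ y = u.s')))

/-- the skeleton lines are induced -/
theorem sk_adj (hF : Lay F Pr) (hQ : Prof F Q) {j : ℤ} {v y : Vx J} (hv : v ∈ F.SK Q j)
    (hy : y ∈ F.SK Q j) (hadj : F.Γ.Adj v y) : ∃ u ∈ Q, F.f u.s = j ∧ (Ed u v y ∨ Ed u y v) := by
  have oo : ∀ u1 ∈ Q, ∀ u2 ∈ Q, F.f u1.s = j → F.f u2.s = j → F.ρ u2.s = F.ρ u1.s + 1 →
      Ed u1 u1.s u2.s := by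
    intro u1 h1 u2 h2 e1 e2 r
    have v1 := hQ.val u1 h1
    have v2 := hQ.val u2 h2
    have l := vlt v1
    have k := hQ.vis h1 h2 (e1.trans e2.symm)
    have e : u2.s = u1.s' := hF.inj (e2 ▸ v2.hs) (e1 ▸ v1.hs') (by omega)
    refine Or.inl ⟨?_, rfl, e⟩
    by_contra hx
    have := (cap_of v1 hx).lt
    omega
  have ox : ∀ u1 ∈ Q, ∀ u2 ∈ Q, F.f u1.s = j → F.f u2.s = j → u2.x ≠ u2.s → F.Γ.Adj u1.s u2.x →
      Ed u2 u1.s u2.x ∨ Ed u2 u2.x u1.s := by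
    intro u1 h1 u2 h2 e1 e2 n a
    have v1 := hQ.val u1 h1
    have v2 := hQ.val u2 h2
    have m1 : u1.s ∈ F.L (F.f u2.s) := by rw [e2, ← e1]; exact v1.hs
    have t := (cap_of v2 n).xn u1.s m1 a.symm
    have t1 := t.2.1
    have t2 := t.2.2
    rcases hQ.vis h2 h1 (e2.trans e1.symm) with k | k
    · exact Or.inl (Or.inr ⟨n, Or.inl ⟨hF.inj m1 v2.hs (by omega), rfl⟩⟩)
    · exact Or.inr (Or.inr ⟨n, Or.inr ⟨rfl, hF.inj m1 v2.hs' (by omega)⟩⟩)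
  obtain ⟨u1, h1, e1, a1⟩ := sk_cases hF hQ hv
  obtain ⟨u2, h2, e2, a2⟩ := sk_cases hF hQ hy
  rcases a1 with rfl | ⟨n1, rfl⟩ <;> rcases a2 with rfl | ⟨n2, rfl⟩
  · rcases (hF.adj_iff (e1 ▸ (hQ.val u1 h1).hs) (e2 ▸ (hQ.val u2 h2).hs)).1 hadj with r | r
    · exact ⟨u1, h1, e1, Or.inl (oo u1 h1 u2 h2 e1 e2 r)⟩
    · exact ⟨u2, h2, e2, Or.inr (oo u2 h2 u1 h1 e2 e1 r)⟩
  · exact ⟨u2, h2, e2, ox u1 h1 u2 h2 e1 e2 n2 hadj⟩
  · exact ⟨u1, h1, e1, (ox u2 h2 u1 h1 e2 e1 n1 hadj.symm).symm⟩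
  · exact absurd hadj (hQ.nadj u1 h1 u2 h2 (e1.trans e2.symm) n1 n2)

/-- A static plan: colours `c` and tokens `o` of the row vertices (`dn` says that a token is used
below the row) and the colour `cx` of the apex of a cap. -/
structure PD (J : Type) where
  c : J → Col
  o : Vx J → Vx J
  dn : Set J
  cx : Un J → Col
  cls : ℤ → Bool

/-- The token of `v` points to the right. -/
def PD.R (p : PD J) (F : FD J) (v : Vx J) : Prop := p.o v = F.nx v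

/-- The token of `v` points to the left. -/
def PD.Lt (p : PD J) (F : FD J) (v : Vx J) : Prop := p.o v ∈ F.L (F.f v) ∧ F.nx (p.o v) = v

/-- A valid plan for the units described by `Ok`. -/
structure Plan (F : FD J) (p : PD J) (Ok : Un J → Prop) : Prop where
  alt : ∀ j, p.cls (j + 1) ≠ p.cls j
  cl : ∀ v ∈ F.LA, (p.c v.1).1 = p.cls (F.f v)
  otr : ∀ a, ∀ v ∈ F.LA, p.o (tr a v) = tr a (p.o v)
  mono : ∀ y ∈ F.LA, p.c (F.nx y).1 = p.c y.1 → p.o y = F.nx y ∧ p.o (F.nx y) = y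
  xtr : ∀ a u, Val F ∅ u → p.cx (u.act a) = p.cx u
  xcl : ∀ u, Val F ∅ u → Ok u → u.x ≠ u.s → (p.cx u).1 = p.cls (F.f u.s)
  xs : ∀ u, Val F ∅ u → Ok u → u.x ≠ u.s → p.cx u = p.c u.s.1 →
    p.R F u.s ∧ p.cx u ≠ p.c u.s'.1
  xs' : ∀ u, Val F ∅ u → Ok u → u.x ≠ u.s → p.cx u = p.c u.s'.1 → p.Lt F u.s'

/-- The end `v` of the unit `u` has its token inside the interval of `u`. -/
def PD.In (p : PD J) (F : FD J) (u : Un J) (v : Vx J) : Prop :=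
  (v = u.s ∧ p.R F v) ∨ (v = u.s' ∧ p.Lt F v)

/-- The vertices that may get a neighbour of their colour inside the macro cell. -/
def PD.Al (p : PD J) (F : FD J) (M : MU J) (O : Set (Un J)) : Set (Vx J) :=
  {v | (∃ u ∈ O, u.x = u.s ∧ p.c u.s.1 ≠ p.c u.s'.1 ∧ p.In F u v ∧ v.1 ∉ p.dn) ∨
    (∃ u ∈ M.us, u.x = u.s ∧ p.c u.s.1 ≠ p.c u.s'.1 ∧ p.In F u v ∧ v.1 ∈ p.dn) ∨
    (∃ u ∈ M.us, u.x ≠ u.s ∧ ((p.In F u v ∧ p.cx u ≠ p.c v.1) ∨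
      (v = u.x ∧ p.cx u ≠ p.c u.s.1 ∧ p.cx u ≠ p.c u.s'.1)))}

/-- The colouring `c` follows the plan on the boundary of the macro cell. -/
structure PD.Fol (p : PD J) (F : FD J) (M : MU J) (O : Set (Un J)) (c : Vx J → Col) : Prop where
  bot : ∀ v ∈ F.Bot M.s M.s', (∀ u ∈ O, v ∉ u.pk) → c v = p.c v.1
  top : ∀ u ∈ M.us, c u.s = p.c u.s.1 ∧ c u.s' = p.c u.s'.1
  xb : ∀ u ∈ O, u.x ≠ u.s → c u.x = p.cx u
  xt : ∀ u ∈ M.us, u.x ≠ u.s → c u.x = p.cx u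

/-- The extension property of a macro cell. -/
def PD.CX (p : PD J) (F : FD J) (M : MU J) (O : Set (Un J)) : Prop :=
  ∀ c : Vx J → Col, p.Fol F M O c → ∃ c', Rec F.Γ (MM F M O) (p.Al F M O) c c'

variable {p : PD J} {Ok : Un J → Prop}

theorem R_tr (hF : Lay F Pr) (hp : Plan F p Ok) (a : ℤ × ℤ) {v : Vx J} (hv : v ∈ F.LA)
    (h : p.R F v) : p.R F (tr a v) := by
  unfold PD.R at *
  rw [hp.otr a v hv, hF.nx_tr a hv, h]

theorem Lt_tr (hF : Lay F Pr) (hp : Plan F p Ok) (a : ℤ × ℤ) {v : Vx J} (hv : v ∈ F.LA)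
    (h : p.Lt F v) : p.Lt F (tr a v) := by
  unfold PD.Lt at *
  rw [hp.otr a v hv, hF.nx_tr a h.1, h.2]
  exact ⟨(hF.l_tr a v _).2 h.1, rfl⟩

theorem In_tr (hF : Lay F Pr) (hp : Plan F p Ok) (a : ℤ × ℤ) {u : Un J} (hu : Val F ∅ u)
    {v : Vx J} (h : p.In F u v) : p.In F (u.act a) (tr a v) := by
  rcases h with ⟨rfl, h⟩ | ⟨rfl, h⟩
  · exact Or.inl ⟨rfl, R_tr hF hp a hu.hs h⟩
  · exact Or.inr ⟨rfl, Lt_tr hF hp a (hF.la hu.hs') h⟩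

theorem not_R_Lt (hF : Lay F Pr) {v : Vx J} (hv : v ∈ F.LA) (h1 : p.R F v) (h2 : p.Lt F v) :
    False := by
  have a := (hF.nx_mem hv).2.1
  have b := (hF.nx_mem h2.1).2.1
  rw [h2.2, h1] at b
  omega

theorem Al_tr (hF : Lay F Pr) (hp : Plan F p Ok) (a : ℤ × ℤ) {M : MU J} {O : Set (Un J)}
    (hM : MVal F Pr M) (hO : MO F M O) {v : Vx J} (h : v ∈ p.Al F M O) :
    tr a v ∈ p.Al F (M.act a) (Un.act a '' O) := by
  rcases h with ⟨u, hu, e, n, i, d⟩ | ⟨u, hu, e, n, i, d⟩ | ⟨u, hu, e, h⟩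
  · exact Or.inl ⟨u.act a, ⟨u, hu, rfl⟩, congrArg (tr a) e, n,
      In_tr hF hp a (hO.val u hu).1 i, d⟩
  · exact Or.inr (Or.inl ⟨u.act a, ⟨u, hu, rfl⟩, congrArg (tr a) e, n,
      In_tr hF hp a (hM.val u hu).1 i, d⟩)
  · have vu := (hM.val u hu).1
    refine Or.inr (Or.inr ⟨u.act a, ⟨u, hu, rfl⟩, fun e' => e (tr_inj a e'), ?_⟩)
    rw [hp.xtr a u vu]
    rcases h with ⟨i, n⟩ | ⟨rfl, n⟩
    · exact Or.inl ⟨In_tr hF hp a vu i, n⟩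
    · exact Or.inr ⟨rfl, n⟩

theorem CX_tr (hF : Lay F Pr) (hp : Plan F p Ok) (a : ℤ × ℤ) {M : MU J} {O : Set (Un J)}
    (hM : MVal F Pr M) (hO : MO F M O) (h : p.CX F M O) :
    p.CX F (M.act a) (Un.act a '' O) := by
  intro c hc
  obtain ⟨c', hc'⟩ := h (fun x => c (tr a x)) ⟨fun v hv hn => hc.bot (tr a v)
      ((hF.bot_tr hM.hs hM.hs' hM.ps hM.ps' a v).2 hv) (by
        rintro _ ⟨u, hu, rfl⟩ h
        exact hn u hu ((mem_pk a u v).1 h)),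
    fun u hu => hc.top (u.act a) ⟨u, hu, rfl⟩,
    fun u hu n => (hc.xb (u.act a) ⟨u, hu, rfl⟩ fun e => n (tr_inj a e)).trans
      (hp.xtr a u (hO.val u hu).1),
    fun u hu n => (hc.xt (u.act a) ⟨u, hu, rfl⟩ fun e => n (tr_inj a e)).trans
      (hp.xtr a u (hM.val u hu).1)⟩
  exact ⟨_, PkIsoP.rec_tr hF.fine.inv a (fun v => hF.mm_tr a hM O v)
    (fun x hx => Al_tr hF hp a hM hO hx) hc'⟩

/-- the periodic colouring of the skeleton given by a plan -/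
theorem plan_col (hF : Lay F Pr) (hQ : MSol F Pr Q O) (hp : Plan F p Ok) :
    ∃ c : J → Col, (∀ u ∈ Q, c u.s.1 = p.c u.s.1) ∧ ∀ u ∈ Q, u.x ≠ u.s → c u.x.1 = p.cx u := by
  classical
  refine ⟨fun i => if h : ∃ u ∈ Q, u.x ≠ u.s ∧ u.x = (i, 0) then p.cx h.choose else p.c i, ?_, ?_⟩
  · intro u hu
    refine dif_neg ?_
    rintro ⟨t, ht, n, e⟩
    have ht' := hQ.inv u.s.2 t ht
    have e' : (t.act u.s.2).x = u.s := by
      show tr u.s.2 t.x = u.s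
      rw [e]
      simp [tr]
    have n' : (t.act u.s.2).x ≠ (t.act u.s.2).s := fun h => n (tr_inj _ h)
    have l : F.f (t.act u.s.2).s = F.f u.s :=
      sk_lev hF hQ (sk_x (F := F) ht') (by rw [e']; exact sk_s (F := F) hu)
    have := (cap_of (hQ.prof.val _ ht') n').xu
    rw [e', l] at this
    exact lU (hQ.prof.val u hu).hs this
  · intro u hu n
    have hu' := hQ.inv (-u.x.2) u hu
    have e' : (u.act (-u.x.2)).x = (u.x.1, 0) := by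
      show tr (-u.x.2) u.x = _
      simp [tr]
    have n' : (u.act (-u.x.2)).x ≠ (u.act (-u.x.2)).s := fun h => n (tr_inj _ h)
    have h : ∃ t ∈ Q, t.x ≠ t.s ∧ t.x = (u.x.1, 0) := ⟨_, hu', n', e'⟩
    show dite _ _ _ = _
    rw [dif_pos h]
    obtain ⟨ht, nt, et⟩ := h.choose_spec
    have l := sk_lev hF hQ (sk_x (F := F) ht) (et ▸ e' ▸ sk_x (F := F) hu')
    rw [hQ.prof.own_x ht hu' l nt n' (et.trans e'.symm)]
    exact hp.xtr _ u (hQ.prof.val u hu)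

/-- a unit of an output belongs to one macro cell only -/
theorem out_uni (hF : Lay F Pr) (hQ : MSol F Pr Q O) {M1 M2 : MU J} (h1 : M1 ∈ mac F Pr Q)
    (h2 : M2 ∈ mac F Pr Q) {u : Un J} (a1 : u ∈ O M1) (a2 : u ∈ O M2) : M1 = M2 := by
  have v := ((hQ.mo M1 h1).val u a1).1
  exact over_uni hF hQ.prof h1 h2 ((hQ.mo M1 h1).over hF a1 (cov_self v))
    ((hQ.mo M2 h2).over hF a2 (cov_self v))

/-- the token of a vertex lies inside one unit only -/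
theorem In_uni (hF : Lay F Pr) (hQ : Prof F Q) {u1 u2 : Un J} (h1 : u1 ∈ Q) (h2 : u2 ∈ Q)
    {v : Vx J} (i1 : p.In F u1 v) (i2 : p.In F u2 v) : u1 = u2 := by
  rcases i1 with ⟨e1, a⟩ | ⟨e1, a⟩ <;> rcases i2 with ⟨e2, b⟩ | ⟨e2, b⟩
  · exact hQ.own_s h1 h2 (e1.symm.trans e2)
  · exact (not_R_Lt hF (e1 ▸ (hQ.val u1 h1).hs) a b).elim
  · exact (not_R_Lt hF (e2 ▸ (hQ.val u2 h2).hs) b a).elim
  · exact hQ.own_s' hF h1 h2 (e1.symm.trans e2)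

/-- an end of a unit is not an apex -/
theorem end_not_x (hF : Lay F Pr) (hQ : MSol F Pr Q O) {u t : Un J} (hu : u ∈ Q) (ht : t ∈ Q)
    (n : t.x ≠ t.s) {v : Vx J} (e : v = u.s ∨ v = u.s') (e' : v = t.x) : False := by
  have vu := hQ.prof.val u hu
  have hv : v ∈ F.SK Q (F.f u.s) ∧ v ∈ F.L (F.f u.s) := by
    rcases e with rfl | rfl
    · exact ⟨sk_s hu, vu.hs⟩
    · exact ⟨sk_s' hu, vu.hs'⟩
  have l := sk_lev hF hQ hv.1 (e' ▸ sk_x (F := F) ht)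
  have := (cap_of (hQ.prof.val _ ht) n).xu
  rw [← e', ← l] at this
  exact lU hv.2 this

theorem In.ends {u : Un J} {v : Vx J} (h : p.In F u v) : v = u.s ∨ v = u.s' :=
  h.imp And.left And.left

/-- The colouring from a solution whose cells have the extension property. -/
theorem plan_glue [Fintype J] (hF : Lay F Pr) (hQ : MSol F Pr Q O) (hp : Plan F p Ok)
    (hok : ∀ u ∈ Q, Ok u) (hX : ∀ M ∈ mac F Pr Q, p.CX F M (O M)) : ∃ c, Col1 F.Γ ∅ c := by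
  obtain ⟨c, cs, cx⟩ := plan_col hF hQ hp
  have pr := hQ.prof
  have oq : ∀ M ∈ mac F Pr Q, ∀ u ∈ O M, u ∈ Q := fun M hM u hu => (hQ.fix u).2 ⟨M, hM, hu⟩
  have cs' : ∀ u ∈ Q, c u.s'.1 = p.c u.s'.1 := by
    intro u hu
    obtain ⟨t, ht, e⟩ := pr.next hF hu
    rw [← e]
    exact cs t ht
  have ccl : ∀ j, ∀ v ∈ F.SK Q j, (c v.1).1 = p.cls j := by
    intro j v hv
    obtain ⟨u, hu, e, rfl | ⟨n, rfl⟩⟩ := sk_cases hF pr hv
    · rw [cs u hu, hp.cl _ (pr.val u hu).hs, e]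
    · rw [cx u hu n, hp.xcl u (pr.val u hu) (hok u hu) n, e]
  -- a monochromatic skeleton edge uses the tokens of its ends
  have mono : ∀ v ∈ SKA F Q, ∀ y ∈ SKA F Q, F.Γ.Adj v y → c y.1 = c v.1 → ∃ u ∈ Q,
      (u.x = u.s ∧ p.c u.s.1 = p.c u.s'.1 ∧ p.In F u v ∧ p.In F u y) ∨
      (u.x ≠ u.s ∧ ((p.In F u v ∧ p.cx u = p.c v.1 ∧ y = u.x) ∨
        (v = u.x ∧ p.In F u y ∧ p.cx u = p.c y.1))) := by
    rintro v ⟨j, hv⟩ y ⟨j', hy⟩ hadj e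
    have n1 := sk_near hF hQ hv hy hadj
    have n2 := sk_near hF hQ hy hv hadj.symm
    have k1 := ccl j v hv
    have k2 := ccl j' y hy
    rw [e, k1] at k2
    have ej : j' = j := by
      by_contra hne
      rcases (show j' = j + 1 ∨ j = j' + 1 by omega) with h | h
      · exact hp.alt j (h ▸ k2.symm)
      · exact hp.alt j' (h ▸ k2)
    subst ej
    have key : ∀ u ∈ Q, ∀ a b : Vx J, Ed u a b → c a.1 = c b.1 →
        (u.x = u.s ∧ p.c u.s.1 = p.c u.s'.1 ∧ p.In F u a ∧ p.In F u b) ∨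
        (u.x ≠ u.s ∧ ((p.In F u a ∧ p.cx u = p.c a.1 ∧ b = u.x) ∨
          (a = u.x ∧ p.In F u b ∧ p.cx u = p.c b.1))) := by
      intro u hu a b h e
      have vu := pr.val u hu
      rcases h with ⟨t, rfl, rfl⟩ | ⟨n, ⟨rfl, rfl⟩ | ⟨rfl, rfl⟩⟩
      · rw [cs u hu, cs' u hu] at e
        obtain ⟨n1, n2, -⟩ := hF.nx_mem vu.hs
        have es : u.s' = F.nx u.s := hF.inj vu.hs' n1 ((triv_of vu t).trans n2.symm)
        obtain ⟨m1, m2⟩ := hp.mono u.s vu.hs (es ▸ e.symm)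
        refine Or.inl ⟨t, e, Or.inl ⟨rfl, m1⟩, Or.inr ⟨rfl, ?_⟩⟩
        rw [← es] at m2
        refine ⟨?_, by rw [m2, es]⟩
        rw [m2, hF.lf _ _ vu.hs']
        exact vu.hs
      · rw [cs u hu, cx u hu n] at e
        exact Or.inr ⟨n, Or.inl ⟨Or.inl ⟨rfl, (hp.xs u vu (hok u hu) n e.symm).1⟩, e.symm, rfl⟩⟩
      · rw [cs' u hu, cx u hu n] at e
        exact Or.inr ⟨n, Or.inr ⟨rfl, Or.inr ⟨rfl, hp.xs' u vu (hok u hu) n e⟩, e⟩⟩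
    obtain ⟨u, hu, -, h | h⟩ := sk_adj hF pr hv hy hadj
    · exact ⟨u, hu, key u hu v y h e.symm⟩
    · refine ⟨u, hu, ?_⟩
      rcases key u hu y v h e with ⟨a, b, d1, d2⟩ | ⟨n, ⟨a, b, d⟩ | ⟨a, b, d⟩⟩
      · exact Or.inl ⟨a, b, d2, d1⟩
      · exact Or.inr ⟨n, Or.inr ⟨d, a, b⟩⟩
      · exact Or.inr ⟨n, Or.inl ⟨b, d, a⟩⟩
  have xx : ∀ u ∈ Q, ∀ t ∈ Q, u.x ≠ u.s → t.x ≠ t.s → u.x = t.x → u = t := fun u hu t ht n n' e =>
    pr.own_x hu ht (sk_lev hF hQ (sk_x (F := F) hu) (e ▸ sk_x (F := F) ht)) n n' e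
  have ne : ∀ u ∈ Q, u.s ≠ u.s' := fun u hu e => by
    have := vlt (pr.val u hu)
    rw [← e] at this
    omega
  refine glue hF hQ c (fun M => p.Al F M (O M)) (fun a M hM x hx => ?_) (fun M hM => ?_) ?_ ?_ ?_
  · rw [hQ.eqv]
    exact Al_tr hF hp a hM.1 (hQ.mo M hM) hx
  · refine hX M hM _ ⟨fun v hv hn => ?_, fun u hu => ⟨cs u (hM.2 hu), cs' u (hM.2 hu)⟩,
      fun u hu => cx u (oq M hM u hu), fun u hu => cx u (hM.2 hu)⟩
    obtain ⟨u, hu, hc⟩ := pr.cov v (hF.la hv.1)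
    rcases cov_mem hF (pr.val u hu) hc with e | e
    · rw [e]
      exact cs u hu
    · exfalso
      obtain ⟨M', hM', ho⟩ := (hQ.fix u).1 hu
      obtain ⟨vu, b1, b2⟩ := (hQ.mo M' hM').val u ho
      have o := ((capOf vu e).old v hc.1).1 e
      have l1 := hF.lf _ _ hv.1
      have l2 := hF.lf _ _ b1.1
      have l3 := cov_lev hF hc
      have d1 := b1.2.1
      have d2 := b2.2.2
      have d3 := hv.2.1
      have d4 := hv.2.2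
      rcases mac_ap hF pr hM hM' (by omega) with k | k | k
      · exact hn u (k ▸ ho) e
      · have := hF.amono _ _ hM.1.hs' _ ((show F.f M'.s = F.f M.s by omega) ▸ hM'.1.hs) hM.1.ps'
          hM'.1.ps k
        omega
      · have := hF.amono _ _ hM'.1.hs' _ ((show F.f M.s = F.f M'.s by omega) ▸ hM.1.hs) hM'.1.ps'
          hM.1.ps k
        omega
  · intro v hv y hy z hz ay az ey ez
    obtain ⟨u, hu, a⟩ := mono v hv y hy ay ey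
    obtain ⟨t, ht, b⟩ := mono v hv z hz az ez
    rcases a with ⟨a1, -, a3, a4⟩ | ⟨a1, ⟨a2, -, a4⟩ | ⟨a2, a3, a4⟩⟩ <;>
      rcases b with ⟨b1, -, b3, b4⟩ | ⟨b1, ⟨b2, -, b4⟩ | ⟨b2, b3, b4⟩⟩
    · have e := In_uni hF pr hu ht a3 b3
      subst e
      have n1 := ay.ne
      have n2 := az.ne
      rcases In.ends a3 with e | e <;> rcases In.ends a4 with e1 | e1 <;>
        rcases In.ends b4 with e2 | e2 <;> simp_all
    · exact absurd (In_uni hF pr hu ht a3 b2 ▸ a1) b1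
    · exact (end_not_x hF hQ hu ht b1 (In.ends a3) b2).elim
    · exact absurd (In_uni hF pr ht hu b3 a2 ▸ b1) a1
    · rw [a4, b4, In_uni hF pr hu ht a2 b2]
    · exact (end_not_x hF hQ hu ht b1 (In.ends a2) b2).elim
    · exact (end_not_x hF hQ ht hu a1 (In.ends b3) a2).elim
    · exact (end_not_x hF hQ ht hu a1 (In.ends b2) a2).elim
    · have e := xx u hu t ht a1 b1 (a2.symm.trans b2)
      subst e
      have k := fun h => (hp.xs u (pr.val u hu) (hok u hu) a1 h).2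
      rcases In.ends a3 with e | e <;> rcases In.ends b3 with e' | e'
      · rw [e, e']
      · exact absurd (e' ▸ b4) (k (e ▸ a4))
      · exact absurd (e ▸ a4) (k (e' ▸ b4))
      · rw [e, e']
  · intro v hv y hy ay ey M hM hal
    obtain ⟨u, hu, a⟩ := mono v hv y hy ay ey
    rcases hal with ⟨t, ht, b1, b2, b3, -⟩ | ⟨t, ht, b1, b2, b3, -⟩ | ⟨t, ht, b1, ⟨b2, b3⟩ | ⟨b2, b3⟩⟩
    · rcases a with ⟨-, a2, a3, -⟩ | ⟨a1, ⟨a2, -, -⟩ | ⟨a2, -, -⟩⟩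
      · exact b2 (In_uni hF pr hu (oq M hM t ht) a3 b3 ▸ a2)
      · exact a1 (In_uni hF pr (oq M hM t ht) hu b3 a2 ▸ b1)
      · exact end_not_x hF hQ (oq M hM t ht) hu a1 (In.ends b3) a2
    · rcases a with ⟨-, a2, a3, -⟩ | ⟨a1, ⟨a2, -, -⟩ | ⟨a2, -, -⟩⟩
      · exact b2 (In_uni hF pr hu (hM.2 ht) a3 b3 ▸ a2)
      · exact a1 (In_uni hF pr (hM.2 ht) hu b3 a2 ▸ b1)
      · exact end_not_x hF hQ (hM.2 ht) hu a1 (In.ends b3) a2
    · rcases a with ⟨a1, -, a3, -⟩ | ⟨a1, ⟨a2, a3, -⟩ | ⟨a2, -, -⟩⟩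
      · exact b1 (In_uni hF pr hu (hM.2 ht) a3 b2 ▸ a1)
      · exact b3 (In_uni hF pr hu (hM.2 ht) a2 b2 ▸ a3)
      · exact end_not_x hF hQ (hM.2 ht) hu a1 (In.ends b2) a2
    · rcases a with ⟨-, -, a3, -⟩ | ⟨a1, ⟨a2, -, -⟩ | ⟨a2, a3, a4⟩⟩
      · exact end_not_x hF hQ hu (hM.2 ht) b1 (In.ends a3) b2
      · exact end_not_x hF hQ hu (hM.2 ht) b1 (In.ends a2) b2
      · have e := xx u hu t (hM.2 ht) a1 b1 (a2.symm.trans b2)
        subst e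
        rcases In.ends a3 with e | e
        · exact b3.1 (e ▸ a4)
        · exact b3.2 (e ▸ a4)
  · intro M1 h1 M2 h2 v a b
    rcases a with ⟨u, hu, a1, -, a3, a4⟩ | ⟨u, hu, a1, -, a3, a4⟩ |
        ⟨u, hu, a1, ⟨a2, -⟩ | ⟨a2, -⟩⟩ <;>
      rcases b with ⟨t, ht, b1, -, b3, b4⟩ | ⟨t, ht, b1, -, b3, b4⟩ |
        ⟨t, ht, b1, ⟨b2, -⟩ | ⟨b2, -⟩⟩
    · exact out_uni hF hQ h1 h2 hu (In_uni hF pr (oq M1 h1 u hu) (oq M2 h2 t ht) a3 b3 ▸ ht)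
    · exact absurd b4 a4
    · exact absurd (In_uni hF pr (oq M1 h1 u hu) (h2.2 ht) a3 b2 ▸ a1) b1
    · exact (end_not_x hF hQ (oq M1 h1 u hu) (h2.2 ht) b1 (In.ends a3) b2).elim
    · exact absurd a4 b4
    · exact unit_uni hF pr h1 h2 hu (In_uni hF pr (h1.2 hu) (h2.2 ht) a3 b3 ▸ ht)
    · exact absurd (In_uni hF pr (h1.2 hu) (h2.2 ht) a3 b2 ▸ a1) b1
    · exact (end_not_x hF hQ (h1.2 hu) (h2.2 ht) b1 (In.ends a3) b2).elim
    · exact absurd (In_uni hF pr (oq M2 h2 t ht) (h1.2 hu) b3 a2 ▸ b1) a1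
    · exact absurd (In_uni hF pr (h2.2 ht) (h1.2 hu) b3 a2 ▸ b1) a1
    · exact unit_uni hF pr h1 h2 hu (In_uni hF pr (h1.2 hu) (h2.2 ht) a2 b2 ▸ ht)
    · exact (end_not_x hF hQ (h1.2 hu) (h2.2 ht) b1 (In.ends a2) b2).elim
    · exact (end_not_x hF hQ (oq M2 h2 t ht) (h1.2 hu) a1 (In.ends b3) a2).elim
    · exact (end_not_x hF hQ (h2.2 ht) (h1.2 hu) a1 (In.ends b3) a2).elim
    · exact (end_not_x hF hQ (h2.2 ht) (h1.2 hu) a1 (In.ends b2) a2).elim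
    · exact unit_uni hF pr h1 h2 hu
        (xx u (h1.2 hu) t (h2.2 ht) a1 b1 (a2.symm.trans b2) ▸ ht)

/-- The master theorem: a static plan, a solver for every macro cell and a barrier give a
colouring with defect one. -/
theorem master [Fintype J] (hF : Lay F Pr) (Ok0 : Un J → Prop) (hp : Plan F p Ok)
    (i0 : ∀ a u, Val F ∅ u → Ok0 u → Ok0 (u.act a)) (i1 : ∀ a u, Val F ∅ u → Ok u → Ok (u.act a))
    (h01 : ∀ u, Ok u → Ok0 u) (htv : ∀ y ∈ F.LA, Ok0 (Tv F y))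
    (hvis : ∀ j, ∃ t ∈ F.L j, t ∈ Pr ∧ ∀ u, Val F ∅ u → Ok0 u → F.f u.s = j → t ∉ u.pk)
    (hsol : ∀ M, MVal F Pr M → (∀ u ∈ M.us, Ok0 u) →
      ∃ O, MO F M O ∧ (∀ u ∈ O, Ok u) ∧ ((∀ u ∈ M.us, Ok u) → p.CX F M O))
    (r : Vx J → ℕ) (N : ℕ) (hN : ∀ y ∈ F.LA, r y ≤ N)
    (hr : ∀ y ∈ F.LA,
      (∀ u1 u2, Val F ∅ u1 → Val F ∅ u2 → Ok u1 → Ok u2 → F.Cov u1 y → F.Cov u2 y → u1 = u2) ∨
      ∀ M, MVal F Pr M → (∀ u ∈ M.us, Ok u) → Over F M y →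
        ∀ u ∈ M.us, ∃ z, F.Cov u z ∧ r z < r y) : ∃ c, Col1 F.Γ ∅ c := by
  obtain ⟨Q, O, hQ, hok, hX⟩ := msol hF Ok0 Ok
    (fun M O => (∀ u ∈ M.us, Ok u) → p.CX F M O) i0 i1 (fun a M O hM hO h hu =>
      CX_tr hF hp a hM hO (h fun u hu' => by
        have := i1 (-a) _ (hF.val_tr a (hM.val u hu').1) (hu _ ⟨u, hu', rfl⟩)
        rwa [Un.act_act, add_neg_cancel, Un.act_zero] at this))
    h01 htv hvis hsol r N hN hr
  exact plan_glue hF hQ hp hok fun M hM => hX M hM fun u hu => hok u (hM.2 hu)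

end Pool.Agent.P.MP_08fd93_co.FM
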